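import Mathlib

set_option autoImplicit false

open Finset

namespace Pool.Agent.Lib.helper71

/-- primes in `(a, b]` -/
def PI (a b : ℕ) : Finset ℕ := (Finset.Ioc a b).filter Nat.Prime

theorem mem_PI {a b p : ℕ} : p ∈ PI a b ↔ a < p ∧ p ≤ b ∧ p.Prime := by
  simp [PI, and_assoc]

theorem PI_prime {a b p : ℕ} (h : p ∈ PI a b) : p.Prime := (mem_PI.1 h).2.2

theorem PI_union {a b c : ℕ} (h1 : a ≤ b) (h2 : b ≤ c) : PI a b ∪ PI b c = PI a c := by
  ext p
  simp only [Finset.mem_union, mem_PI]
  constructor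
  · rintro (⟨x, y, z⟩ | ⟨x, y, z⟩)
    · exact ⟨x, by omega, z⟩
    · exact ⟨by omega, y, z⟩
  · rintro ⟨x, y, z⟩
    rcases le_or_gt p b with h | h
    · left; exact ⟨x, h, z⟩
    · right; exact ⟨h, y, z⟩

theorem PI_disj {a b c : ℕ} : Disjoint (PI a b) (PI b c) := by
  rw [Finset.disjoint_left]
  intro p hp hq
  rw [mem_PI] at hp hq
  omega

theorem prod_PI {a b c : ℕ} (h1 : a ≤ b) (h2 : b ≤ c) (f : ℕ → ℝ) :
    ∏ p ∈ PI a c, f p = (∏ p ∈ PI a b, f p) * ∏ p ∈ PI b c, f p := by
  rw [← PI_union h1 h2, Finset.prod_union PI_disj]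

theorem sum_PI {a b c : ℕ} (h1 : a ≤ b) (h2 : b ≤ c) (f : ℕ → ℝ) :
    ∑ p ∈ PI a c, f p = (∑ p ∈ PI a b, f p) + ∑ p ∈ PI b c, f p := by
  rw [← PI_union h1 h2, Finset.sum_union PI_disj]

/-- `V n = ∏_{p ≤ n} (1 - 1/p)` -/
noncomputable def V (n : ℕ) : ℝ := ∏ p ∈ PI 0 n, (1 - 1 / (p : ℝ))

theorem one_sub_inv_pos {p : ℕ} (hp : p.Prime) : (0 : ℝ) < 1 - 1 / (p : ℝ) := by
  have : (1 : ℝ) < p := by exact_mod_cast hp.one_lt
  have h2 : 1 / (p : ℝ) < 1 := by rw [div_lt_one (by linarith)]; exact this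
  linarith

theorem V_pos (n : ℕ) : 0 < V n :=
  Finset.prod_pos fun p hp => one_sub_inv_pos (PI_prime hp)

/-- sum over integers free of primes in `P` -/
noncomputable def R (P : Finset ℕ) (x : ℕ) : ℝ :=
  ∑ n ∈ (Icc 1 x).filter (fun n => ∀ p ∈ P, ¬ p ∣ n), 1 / (n : ℝ)

theorem R_nonneg (P : Finset ℕ) (x : ℕ) : 0 ≤ R P x :=
  Finset.sum_nonneg fun _ _ => by positivity

theorem R_lower (P : Finset ℕ) (hP : ∀ p ∈ P, p.Prime) (x : ℕ) :
    (∏ p ∈ P, (1 - 1 / (p : ℝ))) * R ∅ x ≤ R P x := by
  induction P using Finset.induction_on with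
  | empty => simp
  | insert q P hq ih =>
    have hqp : q.Prime := hP q (by simp)
    have ih' := ih (fun p hp => hP p (by simp [hp]))
    rw [Finset.prod_insert hq, mul_assoc]
    have hpos := one_sub_inv_pos hqp
    have h1 : (1 - 1 / (q : ℝ)) * R P x ≤ R (insert q P) x := by
      have hsplit : R P x = R (insert q P) x +
          ∑ n ∈ ((Icc 1 x).filter (fun n => ∀ p ∈ P, ¬ p ∣ n)).filter (fun n => q ∣ n),
            1 / (n : ℝ) := by
        have e := Finset.sum_filter_add_sum_filter_not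
          ((Icc 1 x).filter (fun n => ∀ p ∈ P, ¬ p ∣ n)) (fun n => q ∣ n)
          (fun n => 1 / (n : ℝ))
        rw [R, R, ← e, add_comm]
        congr 1
        apply Finset.sum_congr _ (fun _ _ => rfl)
        ext n
        simp only [Finset.mem_filter, Finset.mem_insert, forall_eq_or_imp]
        tauto
      have h2 : ∑ n ∈ ((Icc 1 x).filter (fun n => ∀ p ∈ P, ¬ p ∣ n)).filter (fun n => q ∣ n),
            1 / (n : ℝ) ≤ 1 / (q : ℝ) * R P x := by
        rw [R, Finset.mul_sum]
        have hsub : ((Icc 1 x).filter (fun n => ∀ p ∈ P, ¬ p ∣ n)).filter (fun n => q ∣ n) ⊆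
            (((Icc 1 x).filter (fun n => ∀ p ∈ P, ¬ p ∣ n))).image (fun m => q * m) := by
          intro n hn
          simp only [Finset.mem_filter, Finset.mem_Icc, Finset.mem_image] at hn ⊢
          obtain ⟨⟨⟨h1, h2⟩, h3⟩, m, rfl⟩ := hn
          refine ⟨m, ⟨⟨?_, ?_⟩, ?_⟩, rfl⟩
          · rcases Nat.eq_zero_or_pos m with h | h
            · subst h; simp at h1
            · exact h
          · exact le_trans (Nat.le_mul_of_pos_left m hqp.pos) h2
          · intro p hp hpm
            exact h3 p hp (Dvd.dvd.mul_left hpm q)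
        refine (Finset.sum_le_sum_of_subset_of_nonneg hsub (fun _ _ _ => by positivity)).trans ?_
        rw [Finset.sum_image]
        · apply Finset.sum_le_sum
          intro m hm
          push_cast
          rw [one_div_mul_one_div]
        · intro a _ b _ hab
          exact Nat.eq_of_mul_eq_mul_left hqp.pos hab
      have h3 : R (insert q P) x ≥ R P x - 1 / (q : ℝ) * R P x := by linarith
      linarith [h3, sub_mul 1 (1 / (q : ℝ)) (R P x)]
    exact le_trans (mul_le_mul_of_nonneg_left ih' hpos.le) h1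

theorem log_le_R (x : ℕ) : Real.log x ≤ R ∅ x := by
  have h := log_add_one_le_harmonic x
  have h2 : R ∅ x = (harmonic x : ℝ) := by
    rw [harmonic_eq_sum_Icc, R]
    push_cast
    simp
  rw [h2]
  refine le_trans ?_ h
  rcases Nat.eq_zero_or_pos x with hx | hx
  · subst hx; simp
  · apply Real.log_le_log
    · exact_mod_cast hx
    · push_cast; linarith

theorem R_upper_log (x : ℕ) (hx : 1 ≤ x) : R ∅ x ≤ 1 + Real.log x := by
  have h := harmonic_le_one_add_log x
  have h2 : R ∅ x = (harmonic x : ℝ) := by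
    rw [harmonic_eq_sum_Icc, R]
    push_cast
    simp
  rw [h2]; exact h

/-- Lower bound for sums over rough numbers. -/
theorem rough_lower (Y x : ℕ) : V Y * Real.log x ≤ R (PI 0 Y) x :=
  le_trans (mul_le_mul_of_nonneg_left (log_le_R x) (V_pos Y).le)
    (R_lower _ (fun _ hp => PI_prime hp) x)

/-- Mertens lower bound: `V x * log x ≤ 1`. -/
theorem V_mul_log_le (x : ℕ) (hx : 1 ≤ x) : V x * Real.log x ≤ 1 := by
  refine (rough_lower x x).trans ?_
  have : (Icc 1 x).filter (fun n => ∀ p ∈ PI 0 x, ¬ p ∣ n) ⊆ {1} := by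
    intro n hn
    simp only [Finset.mem_filter, Finset.mem_Icc, Finset.mem_singleton] at hn ⊢
    by_contra h1
    obtain ⟨p, hp, hpn⟩ := Nat.exists_prime_and_dvd h1
    exact hn.2 p (mem_PI.2 ⟨hp.pos, le_trans (Nat.le_of_dvd (by omega) hpn) hn.1.2, hp⟩) hpn
  rw [R]
  refine (Finset.sum_le_sum_of_subset_of_nonneg this (fun _ _ _ => by positivity)).trans ?_
  simp

/-- Rankin's upper bound. -/
theorem rankin (P : Finset ℕ) (hP : ∀ p ∈ P, p.Prime) (g G : ℕ → ℝ)
    (hg0 : ∀ n, 0 ≤ g n) (hg1 : g 1 ≤ 1) (hG0 : ∀ p ∈ P, 0 ≤ G p) (hG1 : ∀ p ∈ P, G p < 1)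
    (hgG : ∀ p ∈ P, ∀ m, 0 < m → g (p * m) ≤ G p * g m) (x : ℕ) :
    ∑ n ∈ (Icc 1 x).filter (fun n => n.primeFactors ⊆ P), g n ≤ ∏ p ∈ P, (1 - G p)⁻¹ := by
  induction P using Finset.induction_on with
  | empty =>
    have : (Icc 1 x).filter (fun n => n.primeFactors ⊆ ∅) ⊆ {1} := by
      intro n hn
      simp only [Finset.mem_filter, Finset.mem_Icc, Finset.mem_singleton, Finset.subset_empty,
        Nat.primeFactors_eq_empty] at hn ⊢
      omega
    refine (Finset.sum_le_sum_of_subset_of_nonneg this (fun n _ _ => hg0 n)).trans ?_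
    simpa using hg1
  | insert q P hq ih =>
    have hqp : q.Prime := hP q (by simp)
    have ih' := ih (fun p hp => hP p (by simp [hp])) (fun p hp => hG0 p (by simp [hp]))
      (fun p hp => hG1 p (by simp [hp])) (fun p hp => hgG p (by simp [hp]))
    rw [Finset.prod_insert hq]
    set F : ℝ := ∑ n ∈ (Icc 1 x).filter (fun n => n.primeFactors ⊆ insert q P), g n with hF
    have hG0q := hG0 q (by simp)
    have hG1q := hG1 q (by simp)
    have key : F ≤ (∑ n ∈ (Icc 1 x).filter (fun n => n.primeFactors ⊆ P), g n) + G q * F := by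
      have e := Finset.sum_filter_add_sum_filter_not
          ((Icc 1 x).filter (fun n => n.primeFactors ⊆ insert q P)) (fun n => q ∣ n) g
      rw [← hF] at e
      have h1 : ∑ n ∈ ((Icc 1 x).filter (fun n => n.primeFactors ⊆ insert q P)).filter
          (fun n => ¬ q ∣ n), g n ≤ ∑ n ∈ (Icc 1 x).filter (fun n => n.primeFactors ⊆ P), g n := by
        apply Finset.sum_le_sum_of_subset_of_nonneg _ (fun n _ _ => hg0 n)
        intro n hn
        simp only [Finset.mem_filter, Finset.mem_Icc] at hn ⊢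
        refine ⟨hn.1.1, ?_⟩
        intro p hp
        have := hn.1.2 hp
        rw [Finset.mem_insert] at this
        rcases this with rfl | h
        · exact absurd (Nat.dvd_of_mem_primeFactors hp) hn.2
        · exact h
      have h2 : ∑ n ∈ ((Icc 1 x).filter (fun n => n.primeFactors ⊆ insert q P)).filter
          (fun n => q ∣ n), g n ≤ G q * F := by
        rw [hF, Finset.mul_sum]
        have hsub : ((Icc 1 x).filter (fun n => n.primeFactors ⊆ insert q P)).filter
            (fun n => q ∣ n) ⊆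
            (((Icc 1 x).filter (fun n => n.primeFactors ⊆ insert q P))).image
              (fun m => q * m) := by
          intro n hn
          simp only [Finset.mem_filter, Finset.mem_Icc, Finset.mem_image] at hn ⊢
          obtain ⟨⟨⟨h1, h2⟩, h3⟩, m, rfl⟩ := hn
          have hm : 0 < m := by
            rcases Nat.eq_zero_or_pos m with h | h
            · subst h; simp at h1
            · exact h
          refine ⟨m, ⟨⟨hm, ?_⟩, ?_⟩, rfl⟩
          · exact le_trans (Nat.le_mul_of_pos_left m hqp.pos) h2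
          · exact (Nat.primeFactors_mono (Dvd.intro_left q rfl) (by positivity)).trans h3
        refine (Finset.sum_le_sum_of_subset_of_nonneg hsub (fun n _ _ => hg0 n)).trans ?_
        rw [Finset.sum_image]
        · apply Finset.sum_le_sum
          intro m hm
          simp only [Finset.mem_filter, Finset.mem_Icc] at hm
          exact hgG q (by simp) m hm.1.1
        · intro a _ b _ hab
          exact Nat.eq_of_mul_eq_mul_left hqp.pos hab
      linarith
    have hpos : 0 < 1 - G q := by linarith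
    have : F * (1 - G q) ≤ ∏ p ∈ P, (1 - G p)⁻¹ := by nlinarith
    rw [inv_mul_eq_div, le_div_iff₀ hpos]
    exact this

end Pool.Agent.Lib.helper71
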