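import Pool.Agent.Lib.helper71.Cost

set_option autoImplicit false

open Finset

namespace Pool.Agent.Lib.helper71

/-- `L = log (1 / V Y)` -/
noncomputable def LL (Y : ℕ) : ℝ := Real.log ((V Y)⁻¹)

theorem V_eq_exp (Y : ℕ) : V Y = Real.exp (-LL Y) := by
  unfold LL
  rw [Real.log_inv, neg_neg, Real.exp_log (V_pos Y)]

theorem V_le_one (Y : ℕ) : V Y ≤ 1 := by
  unfold V
  apply Finset.prod_le_one
  · intro p hp
    exact (one_sub_inv_pos (PI_prime hp)).le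
  · intro p _
    have : (0 : ℝ) ≤ 1 / p := by positivity
    linarith

theorem LL_nonneg (Y : ℕ) : 0 ≤ LL Y := by
  unfold LL
  apply Real.log_nonneg
  exact (one_le_inv₀ (V_pos Y)).2 (V_le_one Y)

/-- the normality condition -/
def good (Y J : ℕ) (κ : ℝ) (b : ℕ) : Prop :=
  ∀ j, j ≤ J → LL Y / 2 < PP Y j → (Om Y j b : ℝ) ≤ κ * PP Y j

noncomputable instance (Y J : ℕ) (κ : ℝ) (b : ℕ) : Decidable (good Y J κ b) :=
  Classical.propDecidable _

noncomputable def Tr (Y J : ℕ) (κ : ℝ) (α β j N : ℕ) : Finset (ℕ × (ℕ × ℕ)) :=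
  (TS Y j J α β).filter (fun t => (N < 4 * mm t ∧ 2 * mm t ≤ N) ∧
    ph α β t ≤ N ∧ good Y J κ (mm t))

theorem one_le_mm {Y j J α β : ℕ} {t : ℕ × (ℕ × ℕ)} (ht : t ∈ TS Y j J α β) : 1 ≤ mm t := by
  rw [mem_TS] at ht
  obtain ⟨⟨hk, _, _⟩, ⟨hu, _, _, _⟩, _, hn, _, hlt, h6⟩ := ht
  unfold mm
  exact Nat.mul_pos (Nat.mul_pos hk hn) hu

theorem one_le_ph {Y j J α β : ℕ} {t : ℕ × (ℕ × ℕ)} (ht : t ∈ TS Y j J α β) : 1 ≤ ph α β t := by
  rw [mem_TS] at ht
  obtain ⟨⟨hk, _, _⟩, ⟨hu, _, _, _⟩, _, hn, _, hlt, h6⟩ := ht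
  unfold ph
  exact Nat.mul_pos (Nat.mul_pos hk hu) (by omega)

/-- weighted cost for small `P_j`. -/
theorem cost_count {Y j J : ℕ} {κ : ℝ} (hj : 60 ≤ j) (hjJ : j ≤ J) (hY : 4 ≤ Y) (hYj : Y ≤ Z j)
    {α β : ℕ} (hαβ : (α = 1 ∧ β = 2) ∨ (α = 2 ∧ β = 1)) :
    ∑ N ∈ Icc 1 (Z J), (1 / (N : ℝ) ^ 2) * (((Tr Y J κ α β j N).image (ph α β)).card : ℝ) ≤
      36 * Real.exp 48 * V (min Y (W j)) * V Y ^ 2 * (V (Z J))⁻¹ * (2 ^ j * j ^ 2) := by
  have h1 : ∑ N ∈ Icc 1 (Z J), (1 / (N : ℝ) ^ 2) *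
      (((Tr Y J κ α β j N).image (ph α β)).card : ℝ) ≤
      ∑ N ∈ Icc 1 (Z J), (1 / (N : ℝ) ^ 2) *
        ∑ t ∈ (TS Y j J α β).filter (fun t => N < 4 * mm t ∧ 2 * mm t ≤ N), (1 : ℝ) := by
    apply Finset.sum_le_sum
    intro N _
    apply mul_le_mul_of_nonneg_left _ (by positivity)
    rw [Finset.sum_const, nsmul_eq_mul, mul_one]
    have : ((Tr Y J κ α β j N).image (ph α β)).card ≤
        ((TS Y j J α β).filter (fun t => N < 4 * mm t ∧ 2 * mm t ≤ N)).card := by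
      refine Finset.card_image_le.trans (Finset.card_le_card ?_)
      intro t ht
      unfold Tr at ht
      rw [Finset.mem_filter] at ht ⊢
      exact ⟨ht.1, ht.2.1⟩
    exact_mod_cast this
  refine h1.trans ((exchange _ mm (fun t ht => one_le_mm ht) (fun _ => (1 : ℝ))
    (fun _ _ => zero_le_one) _).trans ?_)
  have h2 := S_bound (J := J) hj hjJ hY hYj (z1 := 1) (z2 := 1) ⟨by norm_num, le_rfl⟩
    ⟨by norm_num, le_rfl⟩ hαβ
  have e : (-(((2 - 1 - 1) + 2 * (1 - 1 * 1)) * PP Y j) : ℝ) = 0 := by ring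
  rw [e, Real.exp_zero, mul_one] at h2
  simpa using h2

theorem log_two_pow {Y j : ℕ} (hY : 4 ≤ Y) (h : Y ≤ W j) :
    (j : ℝ) * Real.log 2 ≤ 2 * Real.log 2 + LL Y + PP Y j := by
  have h1 := two_pow_le hY h
  have h2 : (2 : ℝ) ^ j = Real.exp (j * Real.log 2) := by
    rw [mul_comm, Real.exp_mul, Real.exp_log (by norm_num), Real.rpow_natCast]
  have h3 : (4 : ℝ) * (V Y)⁻¹ * Real.exp (PP Y j) = Real.exp (2 * Real.log 2 + LL Y + PP Y j) := by
    rw [Real.exp_add, Real.exp_add, V_eq_exp Y, ← Real.exp_neg, neg_neg]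
    congr 2
    rw [mul_comm, Real.exp_mul, Real.exp_log (by norm_num)]
    norm_num
  rw [h2, h3] at h1
  exact Real.exp_le_exp.1 h1

theorem two_pow_eq_exp (j : ℕ) : (2 : ℝ) ^ j = Real.exp (j * Real.log 2) := by
  rw [mul_comm, Real.exp_mul, Real.exp_log (by norm_num), Real.rpow_natCast]

/-- decay rate -/
noncomputable def dl : ℝ := 1 / 50000

theorem cost_small {Y j J : ℕ} {κ : ℝ} (hj : 60 ≤ j) (hjJ : j ≤ J) (hY : 4 ≤ Y) (hYj : Y ≤ Z j)
    {α β : ℕ} (hαβ : (α = 1 ∧ β = 2) ∨ (α = 2 ∧ β = 1)) (hP : PP Y j ≤ LL Y / 2) :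
    ∑ N ∈ Icc 1 (Z J), (1 / (N : ℝ) ^ 2) * (((Tr Y J κ α β j N).image (ph α β)).card : ℝ) ≤
      300 * Real.exp 48 * V Y * (V (Z J))⁻¹ * (j ^ 2 * Real.exp (-(dl * j))) := by
  refine (cost_count hj hjJ hY hYj hαβ).trans ?_
  have hl2 : 0.6931471803 < Real.log 2 := Real.log_two_gt_d9
  have hl2' : Real.log 2 < 0.6931471808 := Real.log_two_lt_d9
  have hVY := V_pos Y
  have hVJ := V_pos (Z J)
  have hj0 : (60 : ℝ) ≤ j := by exact_mod_cast hj
  have key : V (min Y (W j)) * V Y * 2 ^ j ≤ 8 * Real.exp (-(dl * j)) := by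
    rcases le_or_gt Y (W j) with h | h
    · rw [min_eq_left h]
      have h1 := log_two_pow hY h
      rw [two_pow_eq_exp, V_eq_exp, ← Real.exp_add, ← Real.exp_add]
      have h8 : (8 : ℝ) = Real.exp (3 * Real.log 2) := by
        rw [mul_comm, Real.exp_mul, Real.exp_log (by norm_num)]; norm_num
      rw [h8, ← Real.exp_add]
      apply Real.exp_le_exp.2
      unfold dl
      nlinarith
    · rw [min_eq_right h.le]
      have h1 := V_W_upper j
      have h2 : V Y ≤ V (W j) := V_anti h.le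
      have hp : (0 : ℝ) < 2 ^ j := by positivity
      have hVW := V_pos (W j)
      have h3 : V (W j) * V Y * 2 ^ j ≤ (2 * (1 / 2 ^ j)) * (2 * (1 / 2 ^ j)) * 2 ^ j := by
        apply mul_le_mul_of_nonneg_right _ hp.le
        exact mul_le_mul h1 (h2.trans h1) hVY.le (by positivity)
      have h4 : (2 * (1 / (2 : ℝ) ^ j)) * (2 * (1 / 2 ^ j)) * 2 ^ j = 4 * (1 / 2 ^ j) := by
        field_simp; norm_num
      rw [h4] at h3
      refine h3.trans ?_
      rw [one_div, two_pow_eq_exp, ← Real.exp_neg]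
      have h5 : Real.exp (-(j * Real.log 2)) ≤ Real.exp (-(dl * j)) := by
        apply Real.exp_le_exp.2
        unfold dl
        nlinarith
      have h6 := Real.exp_pos (-(dl * j))
      linarith
  have hE := Real.exp_pos 48
  calc 36 * Real.exp 48 * V (min Y (W j)) * V Y ^ 2 * (V (Z J))⁻¹ * (2 ^ j * j ^ 2)
      = (36 * Real.exp 48 * V Y * (V (Z J))⁻¹ * (j : ℝ) ^ 2) * (V (min Y (W j)) * V Y * 2 ^ j) := by
        ring
    _ ≤ (36 * Real.exp 48 * V Y * (V (Z J))⁻¹ * (j : ℝ) ^ 2) * (8 * Real.exp (-(dl * j))) :=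
        mul_le_mul_of_nonneg_left key (by positivity)
    _ = 288 * (Real.exp 48 * V Y * (V (Z J))⁻¹ * (j ^ 2 * Real.exp (-(dl * j)))) := by ring
    _ ≤ 300 * (Real.exp 48 * V Y * (V (Z J))⁻¹ * (j ^ 2 * Real.exp (-(dl * j)))) := by
        apply mul_le_mul_of_nonneg_right (by norm_num) (by positivity)
    _ = _ := by ring

/-- numerical input -/
theorem log_five_half : Real.log (5 / 2) < 0.91630 := by
  have h1 : Real.log (5 / 2) = Real.log 2 + Real.log (5 / 4) := by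
    rw [← Real.log_mul (by norm_num) (by norm_num)]; norm_num
  have h2 : Real.log (5 / 4) ≤ 0.2231442 := by
    have h := Real.abs_log_sub_add_sum_range_le (x := (1 / 5 : ℝ)) (by
      rw [abs_of_pos] <;> norm_num) 8
    have h3 : Real.log (1 - 1 / 5) = -Real.log (5 / 4) := by
      rw [← Real.log_inv]; norm_num
    rw [h3, abs_le] at h
    have h4 := h.1
    rw [abs_of_pos (by norm_num : (0 : ℝ) < 1 / 5)] at h4
    simp only [Finset.sum_range_succ, Finset.sum_range_zero] at h4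
    norm_num at h4
    linarith
  have := Real.log_two_lt_d9
  rw [h1]
  linarith

/-- sum over `N ≥ a` of `1/N²` -/
theorem sum_tail_sq {a X : ℕ} (ha : 1 ≤ a) :
    ∑ N ∈ (Icc 1 X).filter (fun N => a ≤ N), 1 / (N : ℝ) ^ 2 ≤ 2 / (a : ℝ) := by
  rcases le_or_gt a X with h | h
  · have e : (Icc 1 X).filter (fun N => a ≤ N) = insert a (Finset.Ioc a X) := by
      ext N
      simp only [Finset.mem_filter, Finset.mem_Icc, Finset.mem_insert, Finset.mem_Ioc]
      omega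
    have ha0 : (0 : ℝ) < a := by exact_mod_cast ha
    rw [e, Finset.sum_insert (by simp)]
    have h1 : ∑ N ∈ Finset.Ioc a X, 1 / (N : ℝ) ^ 2 ≤ (a : ℝ)⁻¹ - (X : ℝ)⁻¹ := by
      have := sum_Ioc_inv_sq_le_sub (α := ℝ) (k := a) (n := X) (by omega) h
      simpa [one_div] using this
    have h2 : 1 / (a : ℝ) ^ 2 ≤ 1 / a := by
      apply one_div_le_one_div_of_le ha0
      have : (1 : ℝ) ≤ a := by exact_mod_cast ha
      nlinarith
    have h3 : 0 ≤ (X : ℝ)⁻¹ := by positivity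
    have h4 : (2 : ℝ) / a = 1 / a + (a : ℝ)⁻¹ := by rw [one_div]; ring
    linarith
  · have e : (Icc 1 X).filter (fun N => a ≤ N) = ∅ := by
      ext N
      simp only [Finset.mem_filter, Finset.mem_Icc, Finset.notMem_empty, iff_false]
      omega
    rw [e, Finset.sum_empty]
    positivity

theorem A_sum {Y j X : ℕ} (hY : 4 ≤ Y) (hW : W j ≤ X) {z : ℝ} (hz0 : 0 ≤ z) (hz2 : z ≤ 2) :
    ∑ N ∈ Icc 1 X, (1 / (N : ℝ) ^ 2) * ∑ a ∈ Icc 1 N, z ^ Om Y j a ≤
      2 * ((V X)⁻¹ * Real.exp ((z - 1) * PP Y j + 16)) := by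
  have e1 : ∑ N ∈ Icc 1 X, (1 / (N : ℝ) ^ 2) * ∑ a ∈ Icc 1 N, z ^ Om Y j a =
      ∑ a ∈ Icc 1 X, z ^ Om Y j a * ∑ N ∈ (Icc 1 X).filter (fun N => a ≤ N), 1 / (N : ℝ) ^ 2 := by
    have : ∀ N ∈ Icc 1 X, (1 / (N : ℝ) ^ 2) * ∑ a ∈ Icc 1 N, z ^ Om Y j a =
        ∑ a ∈ Icc 1 X, (if a ≤ N then z ^ Om Y j a * (1 / (N : ℝ) ^ 2) else 0) := by
      intro N hN
      rw [Finset.mem_Icc] at hN
      have e2 : Icc 1 N = (Icc 1 X).filter (fun a => a ≤ N) := by
        ext a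
        simp only [Finset.mem_filter, Finset.mem_Icc]
        omega
      rw [e2, Finset.mul_sum, Finset.sum_filter]
      apply Finset.sum_congr rfl
      intro a _
      split_ifs <;> ring
    rw [Finset.sum_congr rfl this, Finset.sum_comm]
    apply Finset.sum_congr rfl
    intro a _
    rw [Finset.mul_sum, Finset.sum_filter]
  rw [e1]
  have h1 : ∑ a ∈ Icc 1 X, z ^ Om Y j a *
      ∑ N ∈ (Icc 1 X).filter (fun N => a ≤ N), 1 / (N : ℝ) ^ 2 ≤
      ∑ a ∈ Icc 1 X, 2 * (z ^ Om Y j a / a) := by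
    apply Finset.sum_le_sum
    intro a ha
    rw [Finset.mem_Icc] at ha
    have := sum_tail_sq (X := X) ha.1
    calc z ^ Om Y j a * _ ≤ z ^ Om Y j a * (2 / a) :=
          mul_le_mul_of_nonneg_left this (by positivity)
      _ = 2 * (z ^ Om Y j a / a) := by ring
  refine h1.trans ?_
  rw [← Finset.mul_sum]
  exact mul_le_mul_of_nonneg_left (all_sum hY hW hz0 hz2) (by norm_num)

theorem num1 {L Q ell : ℝ} (hQ : 0 < Q) (hell : ell < 0.91630) :
    (L + (1 / 3 + 0.0001) * Q) + 1.0001 * Q * ell + (-L + -L + -L) + (L + Q) +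
      (-(((2 - 3 / 4 - 2 / 5) + 2 * (1 - 3 / 4 * (2 / 5))) * Q)) ≤ -L - 0.0001 * Q := by
  have h : Q * ell ≤ Q * 0.91630 := mul_le_mul_of_nonneg_left hell.le hQ.le
  linarith

theorem num2 {L Q x l2 : ℝ} (hx : 0 ≤ x) (h1 : 0.6931471803 < l2) (h1' : l2 < 0.6931471808)
    (h2 : x * l2 ≤ 2 * l2 + L + Q) (h3 : L / 2 < Q) : -0.0001 * Q ≤ 1 / 2 + -(dl * x) := by
  have h : x * 0.6931471803 ≤ x * l2 := mul_le_mul_of_nonneg_left h1.le hx
  unfold dl
  linarith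

theorem exp_half_le : Real.exp (1 / 2) ≤ 2 := by
  have h5 : Real.exp (1 / 2) ^ 2 = Real.exp 1 := by
    rw [← Real.exp_nat_mul]; norm_num
  have h6 := Real.exp_one_lt_d9
  have h7 := Real.exp_pos (1 / 2)
  nlinarith

theorem third_bound {L Q x l2 : ℝ} (hx : 0 ≤ x) (h1 : 0.6931471803 < l2)
    (h1' : l2 < 0.6931471808)
    (h2 : x * l2 ≤ 2 * l2 + L + Q) (h3 : L / 2 < Q) :
    Real.exp (-L - 0.0001 * Q) ≤ Real.exp (-L) * (2 * Real.exp (-(dl * x))) := by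
  have e : Real.exp (-L - 0.0001 * Q) = Real.exp (-L) * Real.exp (-0.0001 * Q) := by
    rw [← Real.exp_add]; congr 1; ring
  rw [e]
  apply mul_le_mul_of_nonneg_left _ (Real.exp_pos _).le
  have h4 : Real.exp (-0.0001 * Q) ≤ Real.exp (1 / 2) * Real.exp (-(dl * x)) := by
    rw [← Real.exp_add]
    exact Real.exp_le_exp.2 (num2 hx h1 h1' h2 h3)
  exact h4.trans (mul_le_mul_of_nonneg_right exp_half_le (Real.exp_pos _).le)

theorem exp_merge {L Q ell v : ℝ} (hQ : 0 < Q) (hell : ell < 0.91630) (hv : v = Real.exp (-L)) :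
    Real.exp (L + (1 / 3 + 0.0001) * Q) * Real.exp (1.0001 * Q * ell) * (v * v * v) *
      Real.exp (L + Q) *
      Real.exp (-(((2 - 3 / 4 - 2 / 5) + 2 * (1 - 3 / 4 * (2 / 5))) * Q)) ≤
    Real.exp (-L - 0.0001 * Q) := by
  rw [hv, ← Real.exp_add, ← Real.exp_add, ← Real.exp_add, ← Real.exp_add,
    ← Real.exp_add, ← Real.exp_add]
  exact Real.exp_le_exp.2 (num1 hQ hell)

theorem exp_merge2 {L Q : ℝ} :
    (Real.exp (L + (1 / 3 + 0.0001) * Q))⁻¹ * Real.exp ((4 / 3 - 1) * Q + 16) =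
      Real.exp 16 * Real.exp (-L - 0.0001 * Q) := by
  rw [← Real.exp_neg, ← Real.exp_add, ← Real.exp_add]
  congr 1; ring

theorem image_bound {Y j J N : ℕ} {α β : ℕ} (hjJ : j ≤ J) (hP : LL Y / 2 < PP Y j)
    {lam : ℝ} (hlam0 : 0 < lam) :
    (((Tr Y J 1.0001 α β j N).image (ph α β)).card : ℝ) ≤
      (∑ t ∈ (TS Y j J α β).filter (fun t => N < 4 * mm t ∧ 2 * mm t ≤ N),
        lam * Real.exp (1.0001 * PP Y j * Real.log (5 / 2)) *
          ((3 / 4 : ℝ) ^ Om Y j (ph α β t) * (2 / 5 : ℝ) ^ Om Y j (mm t))) +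
      lam⁻¹ * ∑ a ∈ Icc 1 N, (4 / 3 : ℝ) ^ Om Y j a := by
  have hell0 : 0 < Real.log (5 / 2) := Real.log_pos (by norm_num)
  set mu := Real.exp (1.0001 * PP Y j * Real.log (5 / 2)) with hmu
  have hmu0 : 0 < mu := Real.exp_pos _
  have h1 : (((Tr Y J 1.0001 α β j N).image (ph α β)).card : ℝ) =
      ∑ a ∈ (Tr Y J 1.0001 α β j N).image (ph α β), (1 : ℝ) := by
    rw [Finset.sum_const, nsmul_eq_mul, mul_one]
  have h2 : ∑ a ∈ (Tr Y J 1.0001 α β j N).image (ph α β), (1 : ℝ) ≤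
      ∑ a ∈ (Tr Y J 1.0001 α β j N).image (ph α β),
        (lam * (3 / 4 : ℝ) ^ Om Y j a + lam⁻¹ * (4 / 3 : ℝ) ^ Om Y j a) := by
    apply Finset.sum_le_sum
    intro a _
    set x := lam * (3 / 4 : ℝ) ^ Om Y j a with hx
    have hx0 : 0 < x := by positivity
    have e : lam⁻¹ * (4 / 3 : ℝ) ^ Om Y j a = x⁻¹ := by
      rw [hx, mul_inv, ← inv_pow]; norm_num
    rw [e]
    have h3 : x * x⁻¹ = 1 := mul_inv_cancel₀ hx0.ne'
    have h4 : 0 < x⁻¹ := inv_pos.2 hx0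
    nlinarith [sq_nonneg (x - x⁻¹)]
  rw [h1]
  refine h2.trans ?_
  rw [Finset.sum_add_distrib]
  apply add_le_add
  · -- image sum ≤ sum over triples
    have h3 : ∑ a ∈ (Tr Y J 1.0001 α β j N).image (ph α β), lam * (3 / 4 : ℝ) ^ Om Y j a ≤
        ∑ t ∈ Tr Y J 1.0001 α β j N, lam * (3 / 4 : ℝ) ^ Om Y j (ph α β t) := by
      apply Finset.sum_image_le_of_nonneg
      intro a _
      positivity
    refine h3.trans ?_
    have h4 : ∑ t ∈ Tr Y J 1.0001 α β j N, lam * (3 / 4 : ℝ) ^ Om Y j (ph α β t) ≤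
        ∑ t ∈ Tr Y J 1.0001 α β j N,
          lam * mu * ((3 / 4 : ℝ) ^ Om Y j (ph α β t) * (2 / 5 : ℝ) ^ Om Y j (mm t)) := by
      apply Finset.sum_le_sum
      intro t ht
      unfold Tr at ht
      rw [Finset.mem_filter] at ht
      have hg := ht.2.2.2 j hjJ hP
      have h5 : 1 ≤ mu * (2 / 5 : ℝ) ^ Om Y j (mm t) := by
        have e1 : (2 / 5 : ℝ) ^ Om Y j (mm t) =
            Real.exp (-((Om Y j (mm t) : ℝ) * Real.log (5 / 2))) := by
          have : (2 / 5 : ℝ) = (5 / 2 : ℝ)⁻¹ := by norm_num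
          rw [Real.exp_neg, mul_comm, Real.exp_mul, Real.exp_log (by norm_num),
            Real.rpow_natCast, this, inv_pow]
        rw [e1, hmu, ← Real.exp_add]
        apply Real.one_le_exp
        have := mul_le_mul_of_nonneg_right hg hell0.le
        linarith
      calc lam * (3 / 4 : ℝ) ^ Om Y j (ph α β t)
          ≤ lam * (3 / 4 : ℝ) ^ Om Y j (ph α β t) * (mu * (2 / 5 : ℝ) ^ Om Y j (mm t)) :=
            le_mul_of_one_le_right (by positivity) h5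
        _ = _ := by ring
    refine h4.trans ?_
    apply Finset.sum_le_sum_of_subset_of_nonneg
    · intro t ht
      unfold Tr at ht
      rw [Finset.mem_filter] at ht ⊢
      exact ⟨ht.1, ht.2.1⟩
    · intro t _ _; positivity
  · rw [← Finset.mul_sum]
    apply mul_le_mul_of_nonneg_left _ (inv_pos.2 hlam0).le
    apply Finset.sum_le_sum_of_subset_of_nonneg
    · intro a ha
      rw [Finset.mem_image] at ha
      obtain ⟨t, ht, rfl⟩ := ha
      unfold Tr at ht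
      rw [Finset.mem_filter] at ht
      exact Finset.mem_Icc.2 ⟨one_le_ph ht.1, ht.2.2.1⟩
    · intro a _ _; positivity

theorem cost_large_sum {Y j J : ℕ} (hj : 60 ≤ j) (hjJ : j ≤ J) (hY : 4 ≤ Y)
    {α β : ℕ} (hP : LL Y / 2 < PP Y j) {lam : ℝ} (hlam0 : 0 < lam) :
    ∑ N ∈ Icc 1 (Z J), (1 / (N : ℝ) ^ 2) *
      (((Tr Y J 1.0001 α β j N).image (ph α β)).card : ℝ) ≤
      lam * Real.exp (1.0001 * PP Y j * Real.log (5 / 2)) *
        (∑ t ∈ TS Y j J α β, (3 / 4 : ℝ) ^ Om Y j (ph α β t) *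
        (2 / 5 : ℝ) ^ Om Y j (mm t) / (2 * mm t)) +
      lam⁻¹ * (2 * ((V (Z J))⁻¹ * Real.exp ((4 / 3 - 1) * PP Y j + 16))) := by
  have hWZ : W j ≤ Z j := W_le_Z (by omega)
  set mu := Real.exp (1.0001 * PP Y j * Real.log (5 / 2)) with hmu
  have hmu0 : 0 < mu := Real.exp_pos _
  calc ∑ N ∈ Icc 1 (Z J), (1 / (N : ℝ) ^ 2) *
      (((Tr Y J 1.0001 α β j N).image (ph α β)).card : ℝ)
      ≤ ∑ N ∈ Icc 1 (Z J), (1 / (N : ℝ) ^ 2) *
        ((∑ t ∈ (TS Y j J α β).filter (fun t => N < 4 * mm t ∧ 2 * mm t ≤ N),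
      lam * mu * ((3 / 4 : ℝ) ^ Om Y j (ph α β t) * (2 / 5 : ℝ) ^ Om Y j (mm t))) +
    lam⁻¹ * ∑ a ∈ Icc 1 N, (4 / 3 : ℝ) ^ Om Y j a) := by
        apply Finset.sum_le_sum
        intro N _
        exact mul_le_mul_of_nonneg_left (image_bound hjJ hP hlam0) (by positivity)
    _ = ∑ N ∈ Icc 1 (Z J), (1 / (N : ℝ) ^ 2) *
        (∑ t ∈ (TS Y j J α β).filter (fun t => N < 4 * mm t ∧ 2 * mm t ≤ N),
      lam * mu * ((3 / 4 : ℝ) ^ Om Y j (ph α β t) * (2 / 5 : ℝ) ^ Om Y j (mm t))) +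
      lam⁻¹ * ∑ N ∈ Icc 1 (Z J), (1 / (N : ℝ) ^ 2) *
        ∑ a ∈ Icc 1 N, (4 / 3 : ℝ) ^ Om Y j a := by
        rw [Finset.mul_sum, ← Finset.sum_add_distrib]
        apply Finset.sum_congr rfl
        intro N _
        ring
    _ ≤ _ := by
        apply add_le_add
        · refine (exchange _ mm (fun t ht => one_le_mm ht) _
            (fun _ _ => by positivity) _).trans (le_of_eq ?_)
          rw [Finset.mul_sum]
          apply Finset.sum_congr rfl
          intro t _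
          ring
        · apply mul_le_mul_of_nonneg_left _ (inv_pos.2 hlam0).le
          exact A_sum hY (hWZ.trans (Z_mono hjJ)) (by norm_num) (by norm_num)

theorem cost_large {Y j J : ℕ} (hj : 60 ≤ j) (hjJ : j ≤ J) (hY : 4 ≤ Y)
    {α β : ℕ} (hαβ : (α = 1 ∧ β = 2) ∨ (α = 2 ∧ β = 1)) (hP : LL Y / 2 < PP Y j) :
    ∑ N ∈ Icc 1 (Z J), (1 / (N : ℝ) ^ 2) *
      (((Tr Y J 1.0001 α β j N).image (ph α β)).card : ℝ) ≤
      300 * Real.exp 48 * V Y * (V (Z J))⁻¹ * (j ^ 2 * Real.exp (-(dl * j))) := by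
  have hPP0 : 0 < PP Y j := lt_of_le_of_lt (by have := LL_nonneg Y; linarith) hP
  have hYW : Y ≤ W j := by
    by_contra h
    have : PI Y (W j) = ∅ := by
      ext p; simp only [mem_PI, Finset.notMem_empty, iff_false]; omega
    unfold PP at hPP0
    rw [this] at hPP0
    simp at hPP0
  have hWZ : W j ≤ Z j := W_le_Z (by omega)
  have hYj : Y ≤ Z j := hYW.trans hWZ
  have hell1 : Real.log (5 / 2) < 0.91630 := log_five_half
  have hS := S_bound (J := J) hj hjJ hY hYj (z1 := 3 / 4) (z2 := 2 / 5) ⟨by norm_num, by norm_num⟩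
    ⟨by norm_num, by norm_num⟩ hαβ
  rw [min_eq_left hYW] at hS
  have hsum := cost_large_sum (α := α) (β := β) hj hjJ hY hP
    (Real.exp_pos (LL Y + (1 / 3 + 0.0001) * PP Y j))
  refine hsum.trans ?_
  have hVY := V_pos Y
  have hVJ := V_pos (Z J)
  have hVe : V Y = Real.exp (-LL Y) := V_eq_exp Y
  have hjr : (60 : ℝ) ≤ j := by exact_mod_cast hj
  have hlog := log_two_pow hY hYW
  have hVJi : 0 < (V (Z J))⁻¹ := inv_pos.2 hVJ
  have hpow : (2 : ℝ) ^ j ≤ 4 * Real.exp (LL Y + PP Y j) := by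
    have := two_pow_le hY hYW
    rw [hVe, ← Real.exp_neg, neg_neg] at this
    rw [Real.exp_add]; linarith
  have hmerge := exp_merge (L := LL Y) (v := V Y) hPP0 hell1 hVe
  have hmerge2 := exp_merge2 (L := LL Y) (Q := PP Y j)
  have third : Real.exp (-LL Y - 0.0001 * PP Y j) ≤ V Y * (2 * Real.exp (-(dl * j))) := by
    rw [hVe]
    exact third_bound (by positivity) Real.log_two_gt_d9 Real.log_two_lt_d9 hlog hP
  clear hlog hell1 hsum hWZ hYj hYW
  generalize hlam : Real.exp (LL Y + (1 / 3 + 0.0001) * PP Y j) = lam at *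
  generalize hmu : Real.exp (1.0001 * PP Y j * Real.log (5 / 2)) = mu at *
  generalize hE : Real.exp (-LL Y - 0.0001 * PP Y j) = E at *
  generalize hF : Real.exp (-(((2 - 3 / 4 - 2 / 5) + 2 * (1 - 3 / 4 * (2 / 5))) * PP Y j)) = F at *
  generalize hG : Real.exp (LL Y + PP Y j) = G at *
  generalize hH : Real.exp ((4 / 3 - 1) * PP Y j + 16) = H at *
  generalize hS' : (∑ t ∈ TS Y j J α β, (3 / 4 : ℝ) ^ Om Y j (ph α β t) *
        (2 / 5 : ℝ) ^ Om Y j (mm t) / (2 * mm t)) = S at *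
  have hlam0 : 0 < lam := by rw [← hlam]; exact Real.exp_pos _
  have hmu0 : 0 < mu := by rw [← hmu]; exact Real.exp_pos _
  have hE0 : 0 < E := by rw [← hE]; exact Real.exp_pos _
  have hF0 : 0 < F := by rw [← hF]; exact Real.exp_pos _
  have hG0 : 0 < G := by rw [← hG]; exact Real.exp_pos _
  clear hlam hmu hE hF hG hH hS'
  have hE48 := Real.exp_pos 48
  have first : lam * mu * S ≤
      144 * Real.exp 48 * (V (Z J))⁻¹ * (j : ℝ) ^ 2 * E := by
    calc lam * mu * S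
        ≤ lam * mu * (36 * Real.exp 48 * V Y * V Y ^ 2 * (V (Z J))⁻¹ * (2 ^ j * j ^ 2) * F) :=
          mul_le_mul_of_nonneg_left hS (by positivity)
      _ ≤ lam * mu * (36 * Real.exp 48 * V Y * V Y ^ 2 * (V (Z J))⁻¹ *
          ((4 * G) * j ^ 2) * F) := by
          apply mul_le_mul_of_nonneg_left _ (by positivity)
          apply mul_le_mul_of_nonneg_right _ hF0.le
          apply mul_le_mul_of_nonneg_left _ (by positivity)
          exact mul_le_mul_of_nonneg_right hpow (by positivity)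
      _ = 144 * Real.exp 48 * (V (Z J))⁻¹ * (j : ℝ) ^ 2 *
          (lam * mu * (V Y * V Y * V Y) * G * F) := by ring
      _ ≤ 144 * Real.exp 48 * (V (Z J))⁻¹ * (j : ℝ) ^ 2 * E :=
          mul_le_mul_of_nonneg_left hmerge (by positivity)
  have second : lam⁻¹ * (2 * ((V (Z J))⁻¹ * H)) ≤
      2 * Real.exp 48 * (V (Z J))⁻¹ * (j : ℝ) ^ 2 * E := by
    have e1 : lam⁻¹ * (2 * ((V (Z J))⁻¹ * H)) = 2 * (V (Z J))⁻¹ * (Real.exp 16 * E) := by
      rw [← hmerge2]; ring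
    rw [e1]
    have e2 : Real.exp 16 ≤ Real.exp 48 := Real.exp_le_exp.2 (by norm_num)
    have e3 : (1 : ℝ) ≤ (j : ℝ) ^ 2 := by nlinarith
    have e4 : Real.exp 16 ≤ Real.exp 48 * (j : ℝ) ^ 2 := by nlinarith
    calc 2 * (V (Z J))⁻¹ * (Real.exp 16 * E) ≤
        2 * (V (Z J))⁻¹ * ((Real.exp 48 * (j : ℝ) ^ 2) * E) := by
          apply mul_le_mul_of_nonneg_left _ (by positivity)
          exact mul_le_mul_of_nonneg_right e4 hE0.le
      _ = _ := by ring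
  calc _ ≤ 144 * Real.exp 48 * (V (Z J))⁻¹ * (j : ℝ) ^ 2 * E +
        2 * Real.exp 48 * (V (Z J))⁻¹ * (j : ℝ) ^ 2 * E := add_le_add first second
    _ = 146 * Real.exp 48 * (V (Z J))⁻¹ * (j : ℝ) ^ 2 * E := by ring
    _ ≤ 146 * Real.exp 48 * (V (Z J))⁻¹ * (j : ℝ) ^ 2 * (V Y * (2 * Real.exp (-(dl * j)))) :=
        mul_le_mul_of_nonneg_left third (by positivity)
    _ = 292 * (Real.exp 48 * V Y * (V (Z J))⁻¹ * (j ^ 2 * Real.exp (-(dl * j)))) := by ring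
    _ ≤ 300 * (Real.exp 48 * V Y * (V (Z J))⁻¹ * (j ^ 2 * Real.exp (-(dl * j)))) :=
        mul_le_mul_of_nonneg_right (by norm_num) (by positivity)
    _ = _ := by ring

end Pool.Agent.Lib.helper71
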