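import Pool.Agent.Lib.helper71.Weights

set_option autoImplicit false

open Finset

namespace Pool.Agent.Lib.helper71

theorem triple_sum {Y j J : ℕ} (hj : 60 ≤ j) (hjJ : j ≤ J) (hY : 4 ≤ Y) (hYj : Y ≤ Z j)
    {z1 z2 : ℝ} (h1 : 0 ≤ z1 ∧ z1 ≤ 1) (h2 : 0 ≤ z2 ∧ z2 ≤ 1) {α β : ℕ}
    (hαβ : (α = 1 ∧ β = 2) ∨ (α = 2 ∧ β = 1)) :
    ∑ k ∈ (Icc 1 (Z J)).filter (fun k => rough Y k),
      ∑ u ∈ (Icc 1 (Z j)).filter (fun u => rough Y u ∧ Z (j - 1) < u),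
        ∑ n ∈ (range (2 * u)).filter (fun n => 0 < n ∧ rough Y n ∧ β * n < α * u),
          ((z1 * z2) ^ Om Y j k / k) * (((z1 * z2) ^ Om Y j u / (u : ℝ) ^ 2) *
            (z2 ^ Om Y j n * z1 ^ Om Y j (α * u - β * n))) ≤
      12 * Real.exp 48 * V (min Y (W j)) * V Y ^ 2 * (V (Z J))⁻¹ * (2 ^ j * j ^ 2) *
        Real.exp (-(((2 - z1 - z2) + 2 * (1 - z1 * z2)) * PP Y j)) := by
  have hz : 0 ≤ z1 * z2 := mul_nonneg h1.1 h2.1
  have hz1 : z1 * z2 ≤ 1 := mul_le_one₀ h1.2 h2.1 h2.2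
  have hWj : W j ≤ Z j := W_le_Z (by omega)
  have hZJ : Z j ≤ Z J := Z_mono hjJ
  set E1 := Real.exp (-((2 - z1 - z2) * PP Y j)) with hE1
  set E2 := Real.exp ((z1 * z2 - 1) * PP Y j + 16) with hE2
  have hVm := V_pos (min Y (W j))
  -- the sum over u and n
  have hU : ∑ u ∈ (Icc 1 (Z j)).filter (fun u => rough Y u ∧ Z (j - 1) < u),
        ∑ n ∈ (range (2 * u)).filter (fun n => 0 < n ∧ rough Y n ∧ β * n < α * u),
          (((z1 * z2) ^ Om Y j u / (u : ℝ) ^ 2) *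
            (z2 ^ Om Y j n * z1 ^ Om Y j (α * u - β * n))) ≤
      6 * V (min Y (W j)) * E1 * (V Y * (V (Z j))⁻¹ * E2) := by
    have hU1 : ∑ u ∈ (Icc 1 (Z j)).filter (fun u => rough Y u ∧ Z (j - 1) < u),
        ∑ n ∈ (range (2 * u)).filter (fun n => 0 < n ∧ rough Y n ∧ β * n < α * u),
          (((z1 * z2) ^ Om Y j u / (u : ℝ) ^ 2) *
            (z2 ^ Om Y j n * z1 ^ Om Y j (α * u - β * n))) ≤
        ∑ u ∈ (Icc 1 (Z j)).filter (fun u => rough Y u ∧ Z (j - 1) < u),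
          6 * V (min Y (W j)) * E1 * ((z1 * z2) ^ Om Y j u * hh Y j u / u) := by
      apply Finset.sum_le_sum
      intro u hu
      simp only [Finset.mem_filter, Finset.mem_Icc] at hu
      rw [← Finset.mul_sum]
      have hin := inner_sum hj hY h1 h2 hαβ hu.2.2
      have hu0 : (0 : ℝ) < u := by exact_mod_cast (show 0 < u by omega)
      calc (z1 * z2) ^ Om Y j u / (u : ℝ) ^ 2 * _
          ≤ (z1 * z2) ^ Om Y j u / (u : ℝ) ^ 2 *
            (6 * u * V (min Y (W j)) * E1 * hh Y j u) :=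
            mul_le_mul_of_nonneg_left hin (by positivity)
        _ = 6 * V (min Y (W j)) * E1 * ((z1 * z2) ^ Om Y j u * hh Y j u / u) := by
            field_simp
    refine hU1.trans ?_
    rw [← Finset.mul_sum]
    apply mul_le_mul_of_nonneg_left _ (by positivity)
    refine le_trans ?_ (rough_sum hY hYj hWj hz (by linarith))
    apply Finset.sum_le_sum_of_subset_of_nonneg
    · intro u hu
      simp only [Finset.mem_filter] at hu ⊢
      exact ⟨hu.1, hu.2.1⟩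
    · intro u _ _
      have := hh_nonneg Y j u
      positivity
  have hK := rough_sum' (j := j) hY (hYj.trans hZJ) (hWj.trans hZJ) hz (by linarith : z1 * z2 ≤ 2)
  have hL : ∑ k ∈ (Icc 1 (Z J)).filter (fun k => rough Y k),
      ∑ u ∈ (Icc 1 (Z j)).filter (fun u => rough Y u ∧ Z (j - 1) < u),
        ∑ n ∈ (range (2 * u)).filter (fun n => 0 < n ∧ rough Y n ∧ β * n < α * u),
          ((z1 * z2) ^ Om Y j k / k) * (((z1 * z2) ^ Om Y j u / (u : ℝ) ^ 2) *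
            (z2 ^ Om Y j n * z1 ^ Om Y j (α * u - β * n))) =
      (∑ k ∈ (Icc 1 (Z J)).filter (fun k => rough Y k), (z1 * z2) ^ Om Y j k / k) *
      (∑ u ∈ (Icc 1 (Z j)).filter (fun u => rough Y u ∧ Z (j - 1) < u),
        ∑ n ∈ (range (2 * u)).filter (fun n => 0 < n ∧ rough Y n ∧ β * n < α * u),
          (((z1 * z2) ^ Om Y j u / (u : ℝ) ^ 2) *
            (z2 ^ Om Y j n * z1 ^ Om Y j (α * u - β * n)))) := by
    rw [Finset.sum_mul]
    apply Finset.sum_congr rfl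
    intro k _
    rw [Finset.mul_sum]
    apply Finset.sum_congr rfl
    intro u _
    rw [Finset.mul_sum]
  rw [hL]
  have hVY := V_pos Y
  have hVJ := V_pos (Z J)
  have hVj := V_pos (Z j)
  have hA : 0 ≤ 6 * V (min Y (W j)) * E1 * (V Y * (V (Z j))⁻¹ * E2) := by positivity
  have hB : 0 ≤ V Y * (V (Z J))⁻¹ * E2 := by positivity
  have hUnn : 0 ≤ ∑ u ∈ (Icc 1 (Z j)).filter (fun u => rough Y u ∧ Z (j - 1) < u),
        ∑ n ∈ (range (2 * u)).filter (fun n => 0 < n ∧ rough Y n ∧ β * n < α * u),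
          (((z1 * z2) ^ Om Y j u / (u : ℝ) ^ 2) *
            (z2 ^ Om Y j n * z1 ^ Om Y j (α * u - β * n))) := by
    apply Finset.sum_nonneg
    intro u _
    apply Finset.sum_nonneg
    intro n _
    have := h1.1
    have := h2.1
    positivity
  have step := mul_le_mul hK hU hUnn hB
  refine step.trans ?_
  have hinv := inv_V_Z (j := j) (by omega)
  calc V Y * (V (Z J))⁻¹ * E2 * (6 * V (min Y (W j)) * E1 * (V Y * (V (Z j))⁻¹ * E2))
      ≤ V Y * (V (Z J))⁻¹ * E2 * (6 * V (min Y (W j)) * E1 *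
        (V Y * (2 * Real.exp 16 * (2 ^ j * j ^ 2)) * E2)) := by
        apply mul_le_mul_of_nonneg_left _ hB
        apply mul_le_mul_of_nonneg_left _ (by positivity)
        apply mul_le_mul_of_nonneg_right _ (Real.exp_pos _).le
        exact mul_le_mul_of_nonneg_left hinv hVY.le
    _ = 12 * V (min Y (W j)) * V Y ^ 2 * (V (Z J))⁻¹ * (2 ^ j * j ^ 2) *
        (Real.exp 16 * E2 * E2 * E1) := by ring
    _ = 12 * V (min Y (W j)) * V Y ^ 2 * (V (Z J))⁻¹ * (2 ^ j * j ^ 2) *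
        (Real.exp 48 * Real.exp (-(((2 - z1 - z2) + 2 * (1 - z1 * z2)) * PP Y j))) := by
        congr 1
        rw [hE1, hE2, ← Real.exp_add, ← Real.exp_add, ← Real.exp_add, ← Real.exp_add]
        congr 1
        ring
    _ = _ := by ring

/-- product of three finsets with a condition -/
theorem sum_prod_filter {A B : Finset ℕ} (P : ℕ → ℕ → Prop) [∀ a b, Decidable (P a b)]
    (F : ℕ → ℕ → ℝ) :
    ∑ t ∈ (A ×ˢ B).filter (fun t => P t.1 t.2), F t.1 t.2 =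
      ∑ a ∈ A, ∑ b ∈ B.filter (fun b => P a b), F a b := by
  rw [Finset.sum_filter, Finset.sum_product]
  apply Finset.sum_congr rfl
  intro a _
  rw [Finset.sum_filter]

/-- index set of the pairs `(u, n)` -/
noncomputable def UN (Y j α β : ℕ) : Finset (ℕ × ℕ) :=
  (((Icc 1 (Z j)).filter (fun u => rough Y u ∧ Z (j - 1) < u)) ×ˢ (range (2 * Z j))).filter
    (fun t => t.2 < 2 * t.1 ∧ 0 < t.2 ∧ rough Y t.2 ∧ β * t.2 < α * t.1 ∧ t.1 < 6 * t.2)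

/-- index set of the triples `(k, (u, n))` -/
noncomputable def TS (Y j J α β : ℕ) : Finset (ℕ × (ℕ × ℕ)) :=
  ((Icc 1 (Z J)).filter (fun k => rough Y k)) ×ˢ UN Y j α β

/-- the number `b' = k n u` -/
def mm (t : ℕ × (ℕ × ℕ)) : ℕ := t.1 * t.2.2 * t.2.1

/-- the number `a' = k u (α u - β n)` -/
def ph (α β : ℕ) (t : ℕ × (ℕ × ℕ)) : ℕ := t.1 * t.2.1 * (α * t.2.1 - β * t.2.2)

theorem mem_TS {Y j J α β : ℕ} {t : ℕ × (ℕ × ℕ)} : t ∈ TS Y j J α β ↔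
    (1 ≤ t.1 ∧ t.1 ≤ Z J ∧ rough Y t.1) ∧ (1 ≤ t.2.1 ∧ t.2.1 ≤ Z j ∧ rough Y t.2.1 ∧
      Z (j - 1) < t.2.1) ∧ t.2.2 < 2 * t.2.1 ∧ 0 < t.2.2 ∧ rough Y t.2.2 ∧
      β * t.2.2 < α * t.2.1 ∧ t.2.1 < 6 * t.2.2 := by
  unfold TS UN
  simp only [Finset.mem_product, Finset.mem_filter, Finset.mem_Icc, Finset.mem_range]
  constructor
  · rintro ⟨⟨⟨a, b⟩, c⟩, ⟨⟨⟨⟨d, e⟩, f, g⟩, h⟩, i⟩⟩
    exact ⟨⟨a, b, c⟩, ⟨d, e, f, g⟩, i⟩
  · rintro ⟨⟨a, b, c⟩, ⟨d, e, f, g⟩, i⟩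
    exact ⟨⟨⟨a, b⟩, c⟩, ⟨⟨⟨⟨d, e⟩, f, g⟩, by omega⟩, i⟩⟩

theorem S_bound {Y j J : ℕ} (hj : 60 ≤ j) (hjJ : j ≤ J) (hY : 4 ≤ Y) (hYj : Y ≤ Z j)
    {z1 z2 : ℝ} (h1 : 0 ≤ z1 ∧ z1 ≤ 1) (h2 : 0 ≤ z2 ∧ z2 ≤ 1) {α β : ℕ}
    (hαβ : (α = 1 ∧ β = 2) ∨ (α = 2 ∧ β = 1)) :
    ∑ t ∈ TS Y j J α β, z1 ^ Om Y j (ph α β t) * z2 ^ Om Y j (mm t) / (2 * mm t) ≤
      36 * Real.exp 48 * V (min Y (W j)) * V Y ^ 2 * (V (Z J))⁻¹ * (2 ^ j * j ^ 2) *
        Real.exp (-(((2 - z1 - z2) + 2 * (1 - z1 * z2)) * PP Y j)) := by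
  have e1 : ∑ t ∈ TS Y j J α β, z1 ^ Om Y j (ph α β t) * z2 ^ Om Y j (mm t) / (2 * mm t) ≤
      ∑ t ∈ TS Y j J α β, 3 * (((z1 * z2) ^ Om Y j t.1 / t.1) *
        (((z1 * z2) ^ Om Y j t.2.1 / (t.2.1 : ℝ) ^ 2) *
            (z2 ^ Om Y j t.2.2 * z1 ^ Om Y j (α * t.2.1 - β * t.2.2)))) := by
    apply Finset.sum_le_sum
    intro t ht
    rw [mem_TS] at ht
    obtain ⟨⟨hk, _, _⟩, ⟨hu, _, _, _⟩, _, hn, _, hlt, h6⟩ := ht
    unfold ph mm
    have hd : α * t.2.1 - β * t.2.2 ≠ 0 := by omega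
    rw [Om_mul Y j (by positivity) hd, Om_mul Y j (by positivity) (by positivity),
      Om_mul Y j (by positivity) (by positivity), Om_mul Y j (by positivity) (by positivity)]
    have hk0 : (0 : ℝ) < t.1 := by exact_mod_cast hk
    have hu0 : (0 : ℝ) < t.2.1 := by exact_mod_cast hu
    have hn0 : (0 : ℝ) < t.2.2 := by exact_mod_cast hn
    have h6' : (t.2.1 : ℝ) ≤ 6 * t.2.2 := by exact_mod_cast h6.le
    have hz1 := h1.1
    have hz2 := h2.1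
    have hA : z1 ^ (Om Y j t.1 + Om Y j t.2.1 + Om Y j (α * t.2.1 - β * t.2.2)) *
        z2 ^ (Om Y j t.1 + Om Y j t.2.2 + Om Y j t.2.1) =
        (z1 * z2) ^ Om Y j t.1 * ((z1 * z2) ^ Om Y j t.2.1 *
          (z2 ^ Om Y j t.2.2 * z1 ^ Om Y j (α * t.2.1 - β * t.2.2))) := by
      rw [pow_add, pow_add, pow_add, pow_add, mul_pow, mul_pow]; ring
    rw [hA]
    set A : ℝ := (z1 * z2) ^ Om Y j t.1
    set B : ℝ := (z1 * z2) ^ Om Y j t.2.1
    set D : ℝ := z2 ^ Om Y j t.2.2 * z1 ^ Om Y j (α * t.2.1 - β * t.2.2)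
    have hApos : 0 ≤ A * (B * D) := by positivity
    push_cast
    have hrhs : 3 * (A / (t.1 : ℝ) * (B / (t.2.1 : ℝ) ^ 2 * D)) =
        A * (B * D) * (3 / (t.1 * (t.2.1 : ℝ) ^ 2)) := by
      field_simp
    rw [hrhs, div_eq_mul_one_div]
    apply mul_le_mul_of_nonneg_left _ hApos
    rw [div_le_div_iff₀ (by positivity) (by positivity), one_mul]
    nlinarith [mul_nonneg (mul_nonneg hk0.le hu0.le) (sub_nonneg.2 h6')]
  refine e1.trans ?_
  rw [← Finset.mul_sum]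
  have e2 : ∑ t ∈ TS Y j J α β, (((z1 * z2) ^ Om Y j t.1 / t.1) *
        (((z1 * z2) ^ Om Y j t.2.1 / (t.2.1 : ℝ) ^ 2) *
            (z2 ^ Om Y j t.2.2 * z1 ^ Om Y j (α * t.2.1 - β * t.2.2)))) ≤
      ∑ k ∈ (Icc 1 (Z J)).filter (fun k => rough Y k),
      ∑ u ∈ (Icc 1 (Z j)).filter (fun u => rough Y u ∧ Z (j - 1) < u),
        ∑ n ∈ (range (2 * u)).filter (fun n => 0 < n ∧ rough Y n ∧ β * n < α * u),
          ((z1 * z2) ^ Om Y j k / k) * (((z1 * z2) ^ Om Y j u / (u : ℝ) ^ 2) *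
            (z2 ^ Om Y j n * z1 ^ Om Y j (α * u - β * n))) := by
    unfold TS
    rw [Finset.sum_product]
    apply Finset.sum_le_sum
    intro k _
    simp only
    unfold UN
    rw [sum_prod_filter (fun u n => n < 2 * u ∧ 0 < n ∧ rough Y n ∧ β * n < α * u ∧ u < 6 * n)
      (fun u n => ((z1 * z2) ^ Om Y j k / k) * (((z1 * z2) ^ Om Y j u / (u : ℝ) ^ 2) *
            (z2 ^ Om Y j n * z1 ^ Om Y j (α * u - β * n))))]
    apply Finset.sum_le_sum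
    intro u _
    apply Finset.sum_le_sum_of_subset_of_nonneg
    · intro n hn
      simp only [Finset.mem_filter, Finset.mem_range] at hn ⊢
      exact ⟨hn.2.1, hn.2.2.1, hn.2.2.2.1, hn.2.2.2.2.1⟩
    · intro n _ _
      have hz1 := h1.1
      have hz2 := h2.1
      positivity
  have e3 := e2.trans (triple_sum hj hjJ hY hYj h1 h2 hαβ)
  linarith

theorem sum_inv_sq_block {m : ℕ} (hm : 1 ≤ m) (X : ℕ) :
    ∑ N ∈ (Icc 1 X).filter (fun N => N < 4 * m ∧ 2 * m ≤ N), 1 / (N : ℝ) ^ 2 ≤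
      1 / (2 * (m : ℝ)) := by
  have hm0 : (0 : ℝ) < m := by exact_mod_cast hm
  calc ∑ N ∈ (Icc 1 X).filter (fun N => N < 4 * m ∧ 2 * m ≤ N), 1 / (N : ℝ) ^ 2
      ≤ ∑ N ∈ (Icc 1 X).filter (fun N => N < 4 * m ∧ 2 * m ≤ N), 1 / (2 * (m : ℝ)) ^ 2 := by
        apply Finset.sum_le_sum
        intro N hN
        simp only [Finset.mem_filter] at hN
        apply one_div_le_one_div_of_le (by positivity)
        apply pow_le_pow_left₀ (by positivity)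
        exact_mod_cast hN.2.2
    _ = (((Icc 1 X).filter (fun N => N < 4 * m ∧ 2 * m ≤ N)).card : ℝ) *
        (1 / (2 * (m : ℝ)) ^ 2) := by
        rw [Finset.sum_const, nsmul_eq_mul]
    _ ≤ (2 * m : ℝ) * (1 / (2 * (m : ℝ)) ^ 2) := by
        apply mul_le_mul_of_nonneg_right _ (by positivity)
        have hc : ((Icc 1 X).filter (fun N => N < 4 * m ∧ 2 * m ≤ N)).card ≤ 2 * m := by
          calc ((Icc 1 X).filter (fun N => N < 4 * m ∧ 2 * m ≤ N)).card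
              ≤ (Finset.Ico (2 * m) (4 * m)).card := by
                apply Finset.card_le_card
                intro N hN
                simp only [Finset.mem_filter] at hN
                exact Finset.mem_Ico.2 ⟨hN.2.2, hN.2.1⟩
            _ = 2 * m := by rw [Nat.card_Ico]; omega
        exact_mod_cast hc
    _ = 1 / (2 * m) := by field_simp

theorem exchange {τ : Type*} (S : Finset τ) (m : τ → ℕ) (hm : ∀ t ∈ S, 1 ≤ m t) (F : τ → ℝ)
    (hF : ∀ t ∈ S, 0 ≤ F t) (X : ℕ) :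
    ∑ N ∈ Icc 1 X, (1 / (N : ℝ) ^ 2) * ∑ t ∈ S.filter (fun t => N < 4 * m t ∧ 2 * m t ≤ N), F t ≤
      ∑ t ∈ S, F t / (2 * m t) := by
  have e1 : ∑ N ∈ Icc 1 X, (1 / (N : ℝ) ^ 2) *
      ∑ t ∈ S.filter (fun t => N < 4 * m t ∧ 2 * m t ≤ N), F t =
      ∑ t ∈ S, F t * ∑ N ∈ (Icc 1 X).filter (fun N => N < 4 * m t ∧ 2 * m t ≤ N),
        1 / (N : ℝ) ^ 2 := by
    have : ∀ N ∈ Icc 1 X, (1 / (N : ℝ) ^ 2) *
      ∑ t ∈ S.filter (fun t => N < 4 * m t ∧ 2 * m t ≤ N), F t =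
      ∑ t ∈ S, (if N < 4 * m t ∧ 2 * m t ≤ N then F t * (1 / (N : ℝ) ^ 2) else 0) := by
      intro N _
      rw [Finset.mul_sum, Finset.sum_filter]
      apply Finset.sum_congr rfl
      intro t _
      split_ifs <;> ring
    rw [Finset.sum_congr rfl this, Finset.sum_comm]
    apply Finset.sum_congr rfl
    intro t _
    rw [Finset.mul_sum, Finset.sum_filter]
  rw [e1]
  apply Finset.sum_le_sum
  intro t ht
  rw [div_eq_mul_one_div]
  exact mul_le_mul_of_nonneg_left (sum_inv_sq_block (hm t ht) X) (hF t ht)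

end Pool.Agent.Lib.helper71
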