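import Pool.Agent.Lib.helper71.Comb

set_option autoImplicit false

open Finset

namespace Pool.Agent.Lib.helper71

noncomputable def qq : ℝ := 1.0001 * Real.log 1.0001 - 0.0001

theorem qq_pos : 0 < qq := by
  unfold qq
  have h := Real.add_one_lt_exp (x := -Real.log 1.0001) (by
    have : 0 < Real.log 1.0001 := Real.log_pos (by norm_num)
    linarith)
  rw [Real.exp_neg, Real.exp_log (by norm_num)] at h
  have h2 : (1.0001 : ℝ) * (-Real.log 1.0001 + 1) < 1.0001 * (1.0001)⁻¹ :=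
    mul_lt_mul_of_pos_left h (by norm_num)
  rw [mul_inv_cancel₀ (by norm_num)] at h2
  linarith

theorem qq_le : qq ≤ 1 := by
  unfold qq
  have h := Real.log_le_sub_one_of_pos (x := 1.0001) (by norm_num)
  linarith

noncomputable def d2 : ℝ := qq * 0.2

theorem d2_pos : 0 < d2 := by
  unfold d2
  have := qq_pos
  linarith

theorem PP_gt_imp {Y j : ℕ} (hP : LL Y / 2 < PP Y j) : Y < W j := by
  by_contra h
  have : PI Y (W j) = ∅ := by
    ext p; simp only [mem_PI, Finset.notMem_empty, iff_false]; omega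
  have h2 : PP Y j = 0 := by unfold PP; rw [this]; simp
  have := LL_nonneg Y
  linarith

/-- exceptional set for the normality condition -/
noncomputable def BT (Y J j : ℕ) : Finset ℕ :=
  (Icc 1 (Z J)).filter (fun b => rough Y b ∧ 1.0001 * PP Y j < (Om Y j b : ℝ))

theorem tloss {Y j J : ℕ} (hj : 1 ≤ j) (hjJ : j ≤ J) (hY : 4 ≤ Y) (hP : LL Y / 2 < PP Y j) :
    ∑ b ∈ BT Y J j, 1 / (b : ℝ) ≤
      V Y * (V (Z J))⁻¹ * (Real.exp 17 * Real.exp (-(d2 * j))) := by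
  have hYW := PP_gt_imp hP
  have hWZ : W j ≤ Z J := (W_le_Z hj).trans (Z_mono hjJ)
  have hkpos : 0 < Real.log 1.0001 := Real.log_pos (by norm_num)
  have h1 : ∑ b ∈ BT Y J j, 1 / (b : ℝ) ≤
      ∑ b ∈ (Icc 1 (Z J)).filter (fun b => rough Y b),
        Real.exp (-(1.0001 * PP Y j * Real.log 1.0001)) * ((1.0001 : ℝ) ^ Om Y j b / b) := by
    have h2 : ∑ b ∈ BT Y J j, 1 / (b : ℝ) ≤ ∑ b ∈ BT Y J j,
        Real.exp (-(1.0001 * PP Y j * Real.log 1.0001)) * ((1.0001 : ℝ) ^ Om Y j b / b) := by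
      apply Finset.sum_le_sum
      intro b hb
      unfold BT at hb
      rw [Finset.mem_filter] at hb
      have h3 : (1 : ℝ) ≤ Real.exp (-(1.0001 * PP Y j * Real.log 1.0001)) *
          (1.0001 : ℝ) ^ Om Y j b := by
        have e : (1.0001 : ℝ) ^ Om Y j b = Real.exp (Om Y j b * Real.log 1.0001) := by
          rw [mul_comm, Real.exp_mul, Real.exp_log (by norm_num), Real.rpow_natCast]
        rw [e, ← Real.exp_add]
        apply Real.one_le_exp
        have := mul_le_mul_of_nonneg_right hb.2.2.le hkpos.le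
        linarith
      rw [← mul_div_assoc]
      exact div_le_div_of_nonneg_right h3 (by positivity)
    refine h2.trans ?_
    apply Finset.sum_le_sum_of_subset_of_nonneg
    · intro b hb
      unfold BT at hb
      rw [Finset.mem_filter] at hb ⊢
      exact ⟨hb.1, hb.2.1⟩
    · intro b _ _; positivity
  refine h1.trans ?_
  rw [← Finset.mul_sum]
  have h4 := rough_sum' (j := j) hY (hYW.le.trans hWZ) hWZ (z := 1.0001) (by norm_num) (by norm_num)
  have hVY := V_pos Y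
  have hVJ := V_pos (Z J)
  calc Real.exp (-(1.0001 * PP Y j * Real.log 1.0001)) *
        ∑ b ∈ (Icc 1 (Z J)).filter (fun b => rough Y b), ((1.0001 : ℝ) ^ Om Y j b / b)
      ≤ Real.exp (-(1.0001 * PP Y j * Real.log 1.0001)) *
        (V Y * (V (Z J))⁻¹ * Real.exp ((1.0001 - 1) * PP Y j + 16)) :=
        mul_le_mul_of_nonneg_left h4 (Real.exp_pos _).le
    _ = V Y * (V (Z J))⁻¹ * (Real.exp (-(1.0001 * PP Y j * Real.log 1.0001)) *
        Real.exp ((1.0001 - 1) * PP Y j + 16)) := by ring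
    _ ≤ V Y * (V (Z J))⁻¹ * (Real.exp 17 * Real.exp (-(d2 * j))) := by
        apply mul_le_mul_of_nonneg_left _ (by positivity)
        rw [← Real.exp_add, ← Real.exp_add]
        apply Real.exp_le_exp.2
        have hlog := log_two_pow hY hYW.le
        have hl2 : 0.6931471803 < Real.log 2 := Real.log_two_gt_d9
        have hl2' : Real.log 2 < 0.6931471808 := Real.log_two_lt_d9
        have hj0 : (0 : ℝ) ≤ j := by positivity
        have h5 : (j : ℝ) * 0.6931471803 ≤ j * Real.log 2 := mul_le_mul_of_nonneg_left hl2.le hj0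
        have h6 : (j : ℝ) * 0.2 ≤ PP Y j + 1 := by linarith
        have h7 : qq * (j * 0.2) ≤ qq * (PP Y j + 1) :=
          mul_le_mul_of_nonneg_left h6 qq_pos.le
        have h8 : qq * (PP Y j + 1) = qq * PP Y j + qq := by ring
        have h9 := qq_le
        have h10 : d2 * j = qq * (j * 0.2) := by unfold d2; ring
        have h11 : -(1.0001 * PP Y j * Real.log 1.0001) + ((1.0001 - 1) * PP Y j + 16) =
            -(qq * PP Y j) + 16 := by unfold qq; ring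
        rw [h11, h10]
        linarith

theorem tail_small (f : ℕ → ℝ) (hf : Summable f) {η : ℝ} (hη : 0 < η) :
    ∃ j0 : ℕ, ∀ j1, j0 ≤ j1 → ∀ J, ∑ j ∈ Finset.Ioc j1 J, f j ≤ η := by
  obtain ⟨s, hs⟩ := summable_iff_vanishing_norm.1 hf η hη
  refine ⟨s.sup id, fun j1 hj1 J => ?_⟩
  have hdis : Disjoint (Finset.Ioc j1 J) s := by
    rw [Finset.disjoint_left]
    intro j hj hjs
    rw [Finset.mem_Ioc] at hj
    have : j ≤ s.sup id := Finset.le_sup (f := id) hjs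
    omega
  have := hs _ hdis
  rw [Real.norm_eq_abs] at this
  exact (le_abs_self _).trans this.le

/-- lower bound for the gain -/
theorem gain {Y J M : ℕ} (hM : 1 ≤ M) :
    (1 / 8) * ∑ b ∈ (Icc M (Z J / 4)).filter (fun b => rough Y b ∧ good Y J 1.0001 b),
      1 / (b : ℝ) ≤
    ∑ N ∈ Icc M (Z J), (1 / (N : ℝ) ^ 2) * ((EH Y J N).card : ℝ) := by
  have e1 : ∑ N ∈ Icc M (Z J), (1 / (N : ℝ) ^ 2) * ((EH Y J N).card : ℝ) =
      ∑ b ∈ Icc 1 (Z J), ∑ N ∈ Icc M (Z J),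
        (if b ∈ EH Y J N then 1 / (N : ℝ) ^ 2 else 0) := by
    rw [Finset.sum_comm]
    apply Finset.sum_congr rfl
    intro N hN
    rw [Finset.mem_Icc] at hN
    rw [← Finset.sum_filter, Finset.sum_const, nsmul_eq_mul, mul_comm]
    congr 2
    have : EH Y J N = filter (fun b => b ∈ EH Y J N) (Icc 1 (Z J)) := by
      ext b
      rw [Finset.mem_filter]
      constructor
      · intro h
        refine ⟨?_, h⟩
        unfold EH at h
        rw [Finset.mem_filter, Finset.mem_Icc] at h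
        rw [Finset.mem_Icc]
        omega
      · exact fun h => h.2
    conv_lhs => rw [this]
  rw [e1, Finset.mul_sum]
  have hsub : (Icc M (Z J / 4)).filter (fun b => rough Y b ∧ good Y J 1.0001 b) ⊆
      Icc 1 (Z J) := by
    intro b hb
    rw [Finset.mem_filter, Finset.mem_Icc] at hb
    rw [Finset.mem_Icc]
    omega
  refine le_trans ?_ (Finset.sum_le_sum_of_subset_of_nonneg hsub ?_)
  · apply Finset.sum_le_sum
    intro b hb
    rw [Finset.mem_filter, Finset.mem_Icc] at hb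
    obtain ⟨⟨hb1, hb2⟩, hr, hg⟩ := hb
    have hb0 : 0 < b := by omega
    have hbr : (0 : ℝ) < b := by exact_mod_cast hb0
    rw [← Finset.sum_filter]
    have hsub2 : Finset.Ico (2 * b) (4 * b) ⊆ (Icc M (Z J)).filter (fun N => b ∈ EH Y J N) := by
      intro N hN
      rw [Finset.mem_Ico] at hN
      rw [Finset.mem_filter, Finset.mem_Icc]
      refine ⟨⟨by omega, by omega⟩, ?_⟩
      unfold EH
      rw [Finset.mem_filter, Finset.mem_Icc]
      exact ⟨⟨hb0, by omega⟩, ⟨hN.2, hN.1⟩, hr, hg⟩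
    refine le_trans ?_ (Finset.sum_le_sum_of_subset_of_nonneg hsub2 (fun _ _ _ => by positivity))
    have h1 : ∑ N ∈ Finset.Ico (2 * b) (4 * b), 1 / (4 * (b : ℝ)) ^ 2 ≤
        ∑ N ∈ Finset.Ico (2 * b) (4 * b), 1 / (N : ℝ) ^ 2 := by
      apply Finset.sum_le_sum
      intro N hN
      rw [Finset.mem_Ico] at hN
      have hN0 : (0 : ℝ) < N := by exact_mod_cast (show 0 < N by omega)
      apply one_div_le_one_div_of_le (by positivity)
      apply pow_le_pow_left₀ hN0.le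
      exact_mod_cast hN.2.le
    refine le_trans (le_of_eq ?_) h1
    rw [Finset.sum_const, Nat.card_Ico, nsmul_eq_mul]
    have : 4 * b - 2 * b = 2 * b := by omega
    rw [this]
    push_cast
    field_simp
    norm_num
  · intro b _ _
    apply Finset.sum_nonneg
    intro N _
    split_ifs <;> positivity

theorem gain2 {j1 J M : ℕ} (hj1 : 60 ≤ j1) (hJ : j1 < J) (hM : 1 ≤ M) :
    V (Z j1) * (Real.log (Z J) - Real.log 4) - M -
      ∑ j ∈ Finset.Ioc j1 J, V (Z j1) * (V (Z J))⁻¹ * (Real.exp 17 * Real.exp (-(d2 * j))) ≤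
    ∑ b ∈ (Icc M (Z J / 4)).filter (fun b => rough (Z j1) b ∧ good (Z j1) J 1.0001 b),
      1 / (b : ℝ) := by
  classical
  set Y := Z j1 with hYdef
  have hY : 4 ≤ Y := by
    have h1 := W_le_Z (j := j1) (by omega)
    have h2 : 4 ≤ W j1 := by
      unfold W
      calc 4 = 2 ^ 2 := by norm_num
        _ ≤ 2 ^ 2 ^ j1 := Nat.pow_le_pow_right (by norm_num) (by
          calc 2 = 2 ^ 1 := by norm_num
            _ ≤ 2 ^ j1 := Nat.pow_le_pow_right (by norm_num) (by omega))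
    omega
  have h1 := rough_lower Y (Z J / 4)
  -- set inclusion
  set JS := (Finset.Ioc j1 J).filter (fun j => LL Y / 2 < PP Y j) with hJS
  have hsub : (Icc 1 (Z J / 4)).filter (fun n => ∀ p ∈ PI 0 Y, ¬ p ∣ n) ⊆
      ((Icc M (Z J / 4)).filter (fun b => rough Y b ∧ good Y J 1.0001 b) ∪ Icc 1 M) ∪
        JS.biUnion (fun j => BT Y J j) := by
    intro b hb
    rw [Finset.mem_filter, Finset.mem_Icc] at hb
    obtain ⟨⟨hb1, hb2⟩, hb3⟩ := hb
    have hr : rough Y b := by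
      intro p hp hpb
      by_contra h
      exact hb3 p (mem_PI.2 ⟨hp.pos, by omega, hp⟩) hpb
    rw [Finset.mem_union, Finset.mem_union]
    by_cases hbM : b ≤ M
    · left; right; rw [Finset.mem_Icc]; exact ⟨hb1, hbM⟩
    · by_cases hg : good Y J 1.0001 b
      · left; left
        rw [Finset.mem_filter, Finset.mem_Icc]
        exact ⟨⟨by omega, hb2⟩, hr, hg⟩
      · right
        unfold good at hg
        push Not at hg
        obtain ⟨j, hjJ, hjP, hjO⟩ := hg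
        rw [Finset.mem_biUnion]
        refine ⟨j, ?_, ?_⟩
        · rw [hJS, Finset.mem_filter, Finset.mem_Ioc]
          refine ⟨⟨?_, hjJ⟩, hjP⟩
          have h3 := PP_gt_imp hjP
          have h4 := W_le_Z (j := j1) (by omega)
          by_contra h5
          have h6 := W_mono (not_lt.1 h5)
          omega
        · unfold BT
          rw [Finset.mem_filter, Finset.mem_Icc]
          exact ⟨⟨hb1, by omega⟩, hr, hjO⟩
  have h2 : R (PI 0 Y) (Z J / 4) ≤
      (∑ b ∈ (Icc M (Z J / 4)).filter (fun b => rough Y b ∧ good Y J 1.0001 b), 1 / (b : ℝ)) +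
        (∑ b ∈ Icc 1 M, 1 / (b : ℝ)) + ∑ j ∈ JS, ∑ b ∈ BT Y J j, 1 / (b : ℝ) := by
    unfold R
    refine (Finset.sum_le_sum_of_subset_of_nonneg hsub (fun _ _ _ => by positivity)).trans ?_
    have k1 : ∀ (S T : Finset ℕ), ∑ b ∈ S ∪ T, 1 / (b : ℝ) ≤
        ∑ b ∈ S, 1 / (b : ℝ) + ∑ b ∈ T, 1 / (b : ℝ) := by
      intro S T
      rw [← Finset.sum_union_inter]
      have : 0 ≤ ∑ b ∈ S ∩ T, 1 / (b : ℝ) := Finset.sum_nonneg fun _ _ => by positivity
      linarith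
    have k2 : ∑ b ∈ JS.biUnion (fun j => BT Y J j), 1 / (b : ℝ) ≤
        ∑ j ∈ JS, ∑ b ∈ BT Y J j, 1 / (b : ℝ) := by
      have : ∀ (I : Finset ℕ), ∑ b ∈ I.biUnion (fun j => BT Y J j), 1 / (b : ℝ) ≤
          ∑ j ∈ I, ∑ b ∈ BT Y J j, 1 / (b : ℝ) := by
        intro I
        induction I using Finset.induction_on with
        | empty => simp
        | insert a I ha ih =>
          rw [Finset.biUnion_insert, Finset.sum_insert ha]
          exact (k1 _ _).trans (by linarith)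
      exact this JS
    refine (k1 _ _).trans (add_le_add (k1 _ _) k2)
  have h3 : ∑ b ∈ Icc 1 M, 1 / (b : ℝ) ≤ M := by
    calc ∑ b ∈ Icc 1 M, 1 / (b : ℝ) ≤ ∑ b ∈ Icc 1 M, (1 : ℝ) := by
          apply Finset.sum_le_sum
          intro b hb
          rw [Finset.mem_Icc] at hb
          rw [div_le_one (by exact_mod_cast (show 0 < b by omega))]
          exact_mod_cast hb.1
      _ = M := by simp
  have h4 : ∑ j ∈ JS, ∑ b ∈ BT Y J j, 1 / (b : ℝ) ≤
      ∑ j ∈ Finset.Ioc j1 J, V Y * (V (Z J))⁻¹ * (Real.exp 17 * Real.exp (-(d2 * j))) := by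
    have k1 : ∑ j ∈ JS, ∑ b ∈ BT Y J j, 1 / (b : ℝ) ≤
        ∑ j ∈ JS, V Y * (V (Z J))⁻¹ * (Real.exp 17 * Real.exp (-(d2 * j))) := by
      apply Finset.sum_le_sum
      intro j hj
      rw [hJS, Finset.mem_filter, Finset.mem_Ioc] at hj
      exact tloss (by omega) hj.1.2 hY hj.2
    refine k1.trans ?_
    apply Finset.sum_le_sum_of_subset_of_nonneg (Finset.filter_subset _ _)
    intro j _ _
    have := V_pos Y
    have := V_pos (Z J)
    positivity
  have h5 : Real.log ((Z J / 4 : ℕ) : ℝ) = Real.log (Z J) - Real.log 4 := by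
    have hd : 4 ∣ Z J := by
      unfold Z
      have : 2 ≤ 2 ^ J * J ^ 2 := by
        have : 1 ≤ 2 ^ J := Nat.one_le_two_pow
        have : 2 ≤ J := by omega
        nlinarith
      calc 4 = 2 ^ 2 := by norm_num
        _ ∣ 2 ^ (2 ^ J * J ^ 2) := pow_dvd_pow 2 this
    rw [Nat.cast_div hd (by norm_num)]
    have := Z_pos J
    rw [Real.log_div (by exact_mod_cast this.ne') (by norm_num)]
    norm_num
  rw [h5] at h1
  linarith

theorem cost_total {j1 J : ℕ} (hj1 : 60 ≤ j1) :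
    ∑ N ∈ Icc 1 (Z J), (1 / (N : ℝ) ^ 2) *
      (∑ j ∈ Finset.Ioc j1 J, ((((Tr (Z j1) J 1.0001 1 2 j N).image (ph 1 2)).card : ℝ) +
          (((Tr (Z j1) J 1.0001 2 1 j N).image (ph 2 1)).card : ℝ))) ≤
    ∑ j ∈ Finset.Ioc j1 J,
      2 * (300 * Real.exp 48 * V (Z j1) * (V (Z J))⁻¹ * (j ^ 2 * Real.exp (-(dl * j)))) := by
  set Y := Z j1 with hYdef
  have hY : 4 ≤ Y := by
    have h1 := W_le_Z (j := j1) (by omega)
    have h2 : 4 ≤ W j1 := by
      unfold W
      calc 4 = 2 ^ 2 := by norm_num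
        _ ≤ 2 ^ 2 ^ j1 := Nat.pow_le_pow_right (by norm_num) (by
          calc 2 = 2 ^ 1 := by norm_num
            _ ≤ 2 ^ j1 := Nat.pow_le_pow_right (by norm_num) (by omega))
    omega
  have e1 : ∑ N ∈ Icc 1 (Z J), (1 / (N : ℝ) ^ 2) *
      (∑ j ∈ Finset.Ioc j1 J, ((((Tr Y J 1.0001 1 2 j N).image (ph 1 2)).card : ℝ) +
          (((Tr Y J 1.0001 2 1 j N).image (ph 2 1)).card : ℝ))) =
      ∑ j ∈ Finset.Ioc j1 J, (∑ N ∈ Icc 1 (Z J), (1 / (N : ℝ) ^ 2) *
        (((Tr Y J 1.0001 1 2 j N).image (ph 1 2)).card : ℝ) +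
        ∑ N ∈ Icc 1 (Z J), (1 / (N : ℝ) ^ 2) *
        (((Tr Y J 1.0001 2 1 j N).image (ph 2 1)).card : ℝ)) := by
    simp_rw [← Finset.sum_add_distrib, Finset.mul_sum]
    rw [Finset.sum_comm]
    apply Finset.sum_congr rfl
    intro j _
    apply Finset.sum_congr rfl
    intro N _
    ring
  rw [e1]
  apply Finset.sum_le_sum
  intro j hj
  rw [Finset.mem_Ioc] at hj
  have hYj : Y ≤ Z j := Z_mono hj.1.le
  have key : ∀ α β : ℕ, ((α = 1 ∧ β = 2) ∨ (α = 2 ∧ β = 1)) →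
      ∑ N ∈ Icc 1 (Z J), (1 / (N : ℝ) ^ 2) *
        (((Tr Y J 1.0001 α β j N).image (ph α β)).card : ℝ) ≤
      300 * Real.exp 48 * V Y * (V (Z J))⁻¹ * (j ^ 2 * Real.exp (-(dl * j))) := by
    intro α β hαβ
    rcases le_or_gt (PP Y j) (LL Y / 2) with h | h
    · exact cost_small (by omega) hj.2 hY hYj hαβ h
    · exact cost_large (by omega) hj.2 hY hαβ h
  have a1 := key 1 2 (Or.inl ⟨rfl, rfl⟩)
  have a2 := key 2 1 (Or.inr ⟨rfl, rfl⟩)
  linarith

theorem le_log_Z {J : ℕ} (hJ : 2 ≤ J) : (J : ℝ) ≤ Real.log (Z J) := by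
  rw [log_Z]
  have hl2 : 0.6931471803 < Real.log 2 := Real.log_two_gt_d9
  have h1 : (1 : ℝ) ≤ 2 ^ J := one_le_pow₀ (by norm_num)
  have h2 : (2 : ℝ) ≤ J := by exact_mod_cast hJ
  have h3 : (J : ℝ) * 2 ≤ (J : ℝ) ^ 2 := by
    rw [pow_two]
    exact mul_le_mul_of_nonneg_left h2 (by linarith)
  have h4 : (J : ℝ) ^ 2 ≤ 2 ^ J * (J : ℝ) ^ 2 := le_mul_of_one_le_left (by positivity) h1
  have h5 : 2 ^ J * (J : ℝ) ^ 2 * 0.6931471803 ≤ 2 ^ J * (J : ℝ) ^ 2 * Real.log 2 :=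
    mul_le_mul_of_nonneg_left hl2.le (by positivity)
  linarith

theorem inv_V_Z' {J : ℕ} (hJ : 2 ≤ J) :
    (V (Z J))⁻¹ ≤ 2 * Real.exp 16 * Real.log (Z J) := by
  have h2 : 2 ≤ Z J := (two_le_W J).trans (W_le_Z (by omega))
  have h3 := inv_V_le (Z J) h2
  have hE := Real.exp_pos 16
  have h4 : (J : ℝ) ≤ Real.log (Z J) := le_log_Z hJ
  have h5 : (2 : ℝ) ≤ J := by exact_mod_cast hJ
  have h6 : Real.exp 16 * (1 + Real.log (Z J)) ≤ Real.exp 16 * (2 * Real.log (Z J)) :=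
    mul_le_mul_of_nonneg_left (by linarith) hE.le
  linarith

theorem log_four_le : Real.log 4 ≤ 2 := by
  have h2 : Real.log 4 = 2 * Real.log 2 := by
    rw [show (4 : ℝ) = 2 ^ 2 by norm_num, Real.log_pow]; push_cast; ring
  have := Real.log_two_lt_d9
  linarith

theorem four_le_Z {j1 : ℕ} (hj1 : 60 ≤ j1) : 4 ≤ Z j1 := by
  have h1 := W_le_Z (j := j1) (by omega)
  have h2 : 4 ≤ W j1 := by
    unfold W
    calc 4 = 2 ^ 2 := by norm_num
      _ ≤ 2 ^ 2 ^ j1 := Nat.pow_le_pow_right (by norm_num) (by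
        calc 2 = 2 ^ 1 := by norm_num
          _ ≤ 2 ^ j1 := Nat.pow_le_pow_right (by norm_num) (by omega))
  omega

theorem final_ineq {v LX q l4 m : ℝ} (hv : 0 < v) (hl4 : l4 ≤ 2) (hq : 0 ≤ q)
    (hbig : 64 * (q + 1) < LX) (hm : m = q * v)
    (h : (1 / 8) * (v * (LX - l4) - m - v * LX / 4) ≤ v / 32 * (1 + LX) + v * LX / 64) :
    False := by
  subst hm
  have e : (1 / 8) * (v * (LX - l4) - q * v - v * LX / 4) - (v / 32 * (1 + LX) + v * LX / 64) =
      v * (3 / 64 * LX - l4 / 8 - q / 8 - 1 / 32) := by ring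
  have h2 : v * (3 / 64 * LX - l4 / 8 - q / 8 - 1 / 32) ≤ 0 := by linarith
  have h3 : 0 < 3 / 64 * LX - l4 / 8 - q / 8 - 1 / 32 := by linarith
  have := mul_pos hv h3
  linarith

theorem tail1 {v a LX : ℝ} (hv : 0 < v) (ha : 0 < a) (hLX : 1 ≤ LX)
    (hinv : a ≤ 2 * Real.exp 16 * LX) (j1 J : ℕ)
    (k2 : ∑ j ∈ Finset.Ioc j1 J, ((j : ℝ) ^ 2 * Real.exp (-(dl * j))) ≤
      (64 * (1200 * Real.exp 64))⁻¹) :
    ∑ j ∈ Finset.Ioc j1 J,
      2 * (300 * Real.exp 48 * v * a * ((j : ℝ) ^ 2 * Real.exp (-(dl * j)))) ≤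
      v * LX / 64 := by
  have k1 : ∑ j ∈ Finset.Ioc j1 J,
    2 * (300 * Real.exp 48 * v * a * ((j : ℝ) ^ 2 * Real.exp (-(dl * j)))) =
    (600 * Real.exp 48 * v * a) *
      ∑ j ∈ Finset.Ioc j1 J, ((j : ℝ) ^ 2 * Real.exp (-(dl * j))) := by
    rw [Finset.mul_sum]
    apply Finset.sum_congr rfl
    intro j _
    ring
  rw [k1]
  have hE := Real.exp_pos 48
  have k3 : 600 * Real.exp 48 * v * a ≤ 600 * Real.exp 48 * v * (2 * Real.exp 16 * LX) :=
    mul_le_mul_of_nonneg_left hinv (by positivity)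
  have k4 : Real.exp 48 * Real.exp 16 = Real.exp 64 := by rw [← Real.exp_add]; norm_num
  calc (600 * Real.exp 48 * v * a) *
      ∑ j ∈ Finset.Ioc j1 J, ((j : ℝ) ^ 2 * Real.exp (-(dl * j)))
      ≤ (600 * Real.exp 48 * v * (2 * Real.exp 16 * LX)) * (64 * (1200 * Real.exp 64))⁻¹ := by
        apply mul_le_mul k3 k2 _ (by positivity)
        exact Finset.sum_nonneg fun _ _ => by positivity
    _ = (1200 * (Real.exp 48 * Real.exp 16) * v * LX) * (64 * (1200 * Real.exp 64))⁻¹ := by ring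
    _ = v * LX / 64 := by
        rw [k4]
        have := (Real.exp_pos 64).ne'
        field_simp

theorem tail2 {v a LX : ℝ} (hv : 0 < v) (ha : 0 < a) (hLX : 1 ≤ LX)
    (hinv : a ≤ 2 * Real.exp 16 * LX) (j1 J : ℕ)
    (k2 : ∑ j ∈ Finset.Ioc j1 J, Real.exp (-(d2 * j)) ≤ (4 * (2 * Real.exp 33))⁻¹) :
    ∑ j ∈ Finset.Ioc j1 J, v * a * (Real.exp 17 * Real.exp (-(d2 * j))) ≤
      v * LX / 4 := by
  have k1 : ∑ j ∈ Finset.Ioc j1 J, v * a * (Real.exp 17 * Real.exp (-(d2 * j))) =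
    (v * a * Real.exp 17) * ∑ j ∈ Finset.Ioc j1 J, Real.exp (-(d2 * j)) := by
    rw [Finset.mul_sum]
    apply Finset.sum_congr rfl
    intro j _
    ring
  rw [k1]
  have k3 : v * a * Real.exp 17 ≤ v * (2 * Real.exp 16 * LX) * Real.exp 17 := by
    apply mul_le_mul_of_nonneg_right _ (Real.exp_pos _).le
    exact mul_le_mul_of_nonneg_left hinv hv.le
  have k4 : Real.exp 16 * Real.exp 17 = Real.exp 33 := by rw [← Real.exp_add]; norm_num
  calc (v * a * Real.exp 17) * ∑ j ∈ Finset.Ioc j1 J, Real.exp (-(d2 * j))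
      ≤ (v * (2 * Real.exp 16 * LX) * Real.exp 17) * (4 * (2 * Real.exp 33))⁻¹ := by
        apply mul_le_mul k3 k2 _ (by positivity)
        exact Finset.sum_nonneg fun _ _ => by positivity
    _ = (2 * (Real.exp 16 * Real.exp 17) * v * LX) * (4 * (2 * Real.exp 33))⁻¹ := by ring
    _ = v * LX / 4 := by
        rw [k4]
        have := (Real.exp_pos 33).ne'
        field_simp

/-- summed form of the pointwise inequality -/
theorem sum_pointwise {M X : ℕ} (hM : 1 ≤ M) (e c : ℕ → ℝ) {eps : ℝ} (heps : 0 ≤ eps)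
    (hX : 1 ≤ X) (hc : ∀ N, 0 ≤ c N) (hpt : ∀ N ∈ Icc M X, e N ≤ eps * N + c N) :
    ∑ N ∈ Icc M X, (1 / (N : ℝ) ^ 2) * e N ≤
      eps * (1 + Real.log X) + ∑ N ∈ Icc 1 X, (1 / (N : ℝ) ^ 2) * c N := by
  have k2 : ∑ N ∈ Icc M X, (1 / (N : ℝ) ^ 2) * e N ≤
    ∑ N ∈ Icc M X, (eps * (1 / (N : ℝ)) + (1 / (N : ℝ) ^ 2) * c N) := by
    apply Finset.sum_le_sum
    intro N hN
    have hN0 : (0 : ℝ) < N := by
      rw [Finset.mem_Icc] at hN
      exact_mod_cast (show 0 < N by omega)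
    refine (mul_le_mul_of_nonneg_left (hpt N hN) (by positivity)).trans (le_of_eq ?_)
    rw [mul_add]
    congr 1
    field_simp
  have k1 : ∑ N ∈ Icc M X, (1 / (N : ℝ) ^ 2) * e N ≤
      ∑ N ∈ Icc 1 X, (eps * (1 / (N : ℝ)) + (1 / (N : ℝ) ^ 2) * c N) := by
    refine k2.trans ?_
    apply Finset.sum_le_sum_of_subset_of_nonneg
    · intro N hN
      rw [Finset.mem_Icc] at hN ⊢
      omega
    · intro N _ _
      have := hc N
      positivity
  refine k1.trans ?_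
  rw [Finset.sum_add_distrib, ← Finset.mul_sum]
  have k3 : ∑ N ∈ Icc 1 X, 1 / (N : ℝ) ≤ 1 + Real.log X := by
    have := R_upper_log X hX
    unfold R at this
    simpa using this
  have := mul_le_mul_of_nonneg_left k3 heps
  linarith

theorem main :
    ∃ ε : ℝ, ε > 0 ∧ ∀ M : ℕ, ∃ N : ℕ, M ≤ N ∧
      ∃ A : Finset ℕ, A ⊆ Finset.Icc 1 N ∧
        (∀ a ∈ A, ∀ b ∈ A, a ≠ b → ¬ (a + b ∣ a * b)) ∧
        ((1 : ℝ) / 2 + ε) * (N : ℝ) ≤ (A.card : ℝ) := by
  -- choice of j1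
  have hs1 : Summable (fun j : ℕ => (j : ℝ) ^ 2 * Real.exp (-(dl * j))) := by
    have := Real.summable_pow_mul_exp_neg_nat_mul 2 (r := dl) (by unfold dl; norm_num)
    simpa [neg_mul] using this
  have hs2 : Summable (fun j : ℕ => Real.exp (-(d2 * j))) := by
    have := Real.summable_pow_mul_exp_neg_nat_mul 0 (r := d2) d2_pos
    simpa [neg_mul] using this
  obtain ⟨ja, hja⟩ := tail_small _ hs1 (η := (64 * (1200 * Real.exp 64))⁻¹) (by positivity)
  obtain ⟨jb, hjb⟩ := tail_small _ hs2 (η := (4 * (2 * Real.exp 33))⁻¹) (by positivity)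
  obtain ⟨j1, hj60, hj1a, hj1b⟩ : ∃ j1, 60 ≤ j1 ∧ ja ≤ j1 ∧ jb ≤ j1 :=
    ⟨ja + jb + 60, by omega, by omega, by omega⟩
  have hY : 4 ≤ Z j1 := four_le_Z hj60
  have hv0 : 0 < V (Z j1) := V_pos _
  refine ⟨V (Z j1) / 32, by positivity, ?_⟩
  intro M0
  by_contra hcon
  push Not at hcon
  -- choice of J
  obtain ⟨J0, hJ0⟩ := exists_nat_gt (64 * (((M0 + 1 : ℕ) : ℝ) / V (Z j1) + 1))
  obtain ⟨J, hJ0J, hj1J⟩ : ∃ J, J0 ≤ J ∧ j1 < J := ⟨J0 + j1 + 1, by omega, by omega⟩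
  have hLXJ : (J : ℝ) ≤ Real.log (Z J) := le_log_Z (by omega)
  have hLXbig : 64 * (((M0 + 1 : ℕ) : ℝ) / V (Z j1) + 1) < Real.log (Z J) := by
    have : (J0 : ℝ) ≤ J := by exact_mod_cast hJ0J
    linarith
  have hLX1 : 1 ≤ Real.log (Z J) := by
    have : (1 : ℝ) ≤ J := by exact_mod_cast (show 1 ≤ J by omega)
    linarith
  have hVJ : 0 < (V (Z J))⁻¹ := inv_pos.2 (V_pos (Z J))
  have hinv := inv_V_Z' (J := J) (by omega)
  -- pointwise inequality
  have hpt : ∀ N ∈ Icc (M0 + 1) (Z J), ((EH (Z j1) J N).card : ℝ) ≤ V (Z j1) / 32 * N +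
      ∑ j ∈ Finset.Ioc j1 J, ((((Tr (Z j1) J 1.0001 1 2 j N).image (ph 1 2)).card : ℝ) +
          (((Tr (Z j1) J 1.0001 2 1 j N).image (ph 2 1)).card : ℝ)) := by
    intro N hN
    rw [Finset.mem_Icc] at hN
    obtain ⟨A, hA1, hA2, hA3⟩ := comb (j1 := j1) (J := J) (N := N) hY hN.2
    have := hcon N (by omega) A hA1 hA2
    linarith
  have hsum := sum_pointwise (M := M0 + 1) (X := Z J) (by omega)
    (fun N => ((EH (Z j1) J N).card : ℝ))
    (fun N => ∑ j ∈ Finset.Ioc j1 J, ((((Tr (Z j1) J 1.0001 1 2 j N).image (ph 1 2)).card : ℝ) +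
          (((Tr (Z j1) J 1.0001 2 1 j N).image (ph 2 1)).card : ℝ)))
    (eps := V (Z j1) / 32) (by positivity) (Z_pos J)
    (fun N => Finset.sum_nonneg fun _ _ => by positivity) hpt
  have hcost := cost_total (j1 := j1) (J := J) hj60
  have hgain := gain (Y := Z j1) (J := J) (M := M0 + 1) (by omega)
  have hgain2 := gain2 (j1 := j1) (J := J) (M := M0 + 1) hj60 hj1J (by omega)
  have ht1 := tail1 hv0 hVJ hLX1 hinv j1 J (hja j1 hj1a J)
  have ht2 := tail2 hv0 hVJ hLX1 hinv j1 J (hjb j1 hj1b J)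
  -- combine
  have hMv : ((M0 + 1 : ℕ) : ℝ) = ((M0 + 1 : ℕ) : ℝ) / V (Z j1) * V (Z j1) := by
    field_simp
  refine final_ineq hv0 log_four_le (q := ((M0 + 1 : ℕ) : ℝ) / V (Z j1)) (by positivity)
    hLXbig hMv ?_
  have a1 : (1 / 8 : ℝ) * (V (Z j1) * (Real.log (Z J) - Real.log 4) - ((M0 + 1 : ℕ) : ℝ) -
      V (Z j1) * Real.log (Z J) / 4) ≤
      (1 / 8) * ∑ b ∈ (Icc (M0 + 1) (Z J / 4)).filter
        (fun b => rough (Z j1) b ∧ good (Z j1) J 1.0001 b), 1 / (b : ℝ) := by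
    apply mul_le_mul_of_nonneg_left _ (by norm_num)
    linarith
  linarith

end Pool.Agent.Lib.helper71
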